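import Mathlib

/-!
Deletion complexes.  `I` a type of generators, `D : (I →₀ ℤ) →ₗ[ℤ] (I →₀ ℤ)` an operator.
For a set `S` of generators we compress `D` to `S`.
-/

namespace H61Mag

open Finsupp

section General

variable {I : Type*}

open Classical in
/-- the projection of the free module on `I` onto the span of `S` -/
noncomputable def P (S : Set I) : (I →₀ ℤ) →ₗ[ℤ] (I →₀ ℤ) where
  toFun c := c.filter (fun i => i ∈ S)
  map_add' a b := by simp [Finsupp.filter_add]
  map_smul' n a := by simp [Finsupp.filter_smul]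

open Classical in
theorem P_apply (S : Set I) (c : I →₀ ℤ) (i : I) :
    P S c i = if i ∈ S then c i else 0 := by
  simp [P, Finsupp.filter_apply]

/-- `c` is supported in `S` -/
def In (S : Set I) (c : I →₀ ℤ) : Prop := ∀ i, i ∉ S → c i = 0

variable (D : (I →₀ ℤ) →ₗ[ℤ] (I →₀ ℤ))

/-- the compression of `D` to `S` is exact -/
def Acy (S : Set I) : Prop :=
  ∀ c, In S c → P S (D c) = 0 → ∃ b, In S b ∧ P S (D b) = c

/-- the homology of the compression of `D` to `S` is torsion-free -/
def Tf (S : Set I) : Prop :=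
  ∀ c, In S c → P S (D c) = 0 → ∀ n : ℤ, n ≠ 0 → ∀ b, In S b → P S (D b) = n • c →
    ∃ b', In S b' ∧ P S (D b') = c

/-- the compression of `D` to `S` squares to zero -/
def Sq (S : Set I) : Prop := ∀ c, In S c → P S (D (P S (D c))) = 0

/-- `D` has no component from `S₁` to `S₂` -/
def NoMap (S₁ S₂ : Set I) : Prop := ∀ i ∈ S₁, ∀ j ∈ S₂, D (Finsupp.single i 1) j = 0

theorem P_of_In {S : Set I} {c : I →₀ ℤ} (h : In S c) : P S c = c := by
  ext i
  rw [P_apply]
  split_ifs with hi
  · rfl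
  · exact (h i hi).symm

theorem In_P (S : Set I) (c : I →₀ ℤ) : In S (P S c) := by
  intro i hi
  rw [P_apply, if_neg hi]

theorem In_zero (S : Set I) : In S (0 : I →₀ ℤ) := fun _ _ => rfl

theorem In.add {S : Set I} {a b : I →₀ ℤ} (ha : In S a) (hb : In S b) : In S (a + b) := by
  intro i hi; simp [ha i hi, hb i hi]

theorem In.sub {S : Set I} {a b : I →₀ ℤ} (ha : In S a) (hb : In S b) : In S (a - b) := by
  intro i hi; simp [ha i hi, hb i hi]

theorem In.smul {S : Set I} {a : I →₀ ℤ} (n : ℤ) (ha : In S a) : In S (n • a) := by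
  intro i hi; simp [ha i hi]

theorem In.neg {S : Set I} {a : I →₀ ℤ} (ha : In S a) : In S (-a) := by
  intro i hi; simp [ha i hi]

theorem In.mono {S T : Set I} (h : S ⊆ T) {a : I →₀ ℤ} (ha : In S a) : In T a :=
  fun i hi => ha i (fun h' => hi (h h'))

theorem In_iff_P {S : Set I} {c : I →₀ ℤ} : In S c ↔ P S c = c :=
  ⟨P_of_In, fun h => h ▸ In_P S c⟩

theorem In_single {S : Set I} {i : I} (h : i ∈ S) (n : ℤ) : In S (Finsupp.single i n) := by
  classical
  intro j hj
  rw [Finsupp.single_apply, if_neg]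
  rintro rfl; exact hj h

theorem D_apply_eq (c : I →₀ ℤ) (j : I) :
    D c j = c.sum (fun i n => n * D (Finsupp.single i 1) j) := by
  have h1 : c = c.sum (fun i n => n • Finsupp.single i (1:ℤ)) := by
    conv_lhs => rw [← Finsupp.sum_single c]
    apply Finsupp.sum_congr
    intro i _
    simp
  conv_lhs => rw [h1]
  rw [Finsupp.sum, map_sum, Finsupp.finsetSum_apply, Finsupp.sum]
  apply Finset.sum_congr rfl
  intro i _
  rw [map_smul, Finsupp.smul_apply, smul_eq_mul]

theorem NoMap.P_eq_zero {S₁ S₂ : Set I} (h : NoMap D S₁ S₂) {c : I →₀ ℤ} (hc : In S₁ c) :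
    P S₂ (D c) = 0 := by
  classical
  ext j
  rw [P_apply]
  split_ifs with hj
  · rw [D_apply_eq]
    simp only [Finsupp.coe_zero, Pi.zero_apply]
    apply Finset.sum_eq_zero
    intro i hi
    by_cases hi' : i ∈ S₁
    · simp [h i hi' j hj]
    · rw [hc i hi']; simp
  · rfl

theorem P_union {S₁ S₂ : Set I} (hd : Disjoint S₁ S₂) (c : I →₀ ℤ) :
    P (S₁ ∪ S₂) c = P S₁ c + P S₂ c := by
  classical
  ext i
  rw [Finsupp.add_apply, P_apply, P_apply, P_apply]
  by_cases h1 : i ∈ S₁
  · have h2 : i ∉ S₂ := fun h2 => (Set.disjoint_left.mp hd) h1 h2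
    simp [h1, h2]
  · by_cases h2 : i ∈ S₂ <;> simp [h1, h2]

theorem P_P_of_subset {S T : Set I} (h : S ⊆ T) (c : I →₀ ℤ) : P S (P T c) = P S c := by
  classical
  ext i
  rw [P_apply, P_apply, P_apply]
  by_cases h1 : i ∈ S
  · simp [h1, h h1]
  · simp [h1]

theorem P_P_of_disjoint {S T : Set I} (h : Disjoint S T) (c : I →₀ ℤ) : P S (P T c) = 0 := by
  classical
  ext i
  rw [P_apply, P_apply]
  by_cases h1 : i ∈ S
  · have : i ∉ T := fun h2 => (Set.disjoint_left.mp h) h1 h2
    simp [this]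
  · simp [h1]

theorem P_eq_zero_of_In {S T : Set I} (h : Disjoint S T) {c : I →₀ ℤ} (hc : In T c) :
    P S c = 0 := by
  rw [← P_of_In hc, P_P_of_disjoint h]

/-- splitting data: `S₁` is closed under `D` (a subcomplex) inside `S₁ ∪ S₂` -/
structure Split (S₁ S₂ : Set I) : Prop where
  disj : Disjoint S₁ S₂
  no : NoMap D S₁ S₂
  sq : Sq D (S₁ ∪ S₂)

variable {D}

theorem Split.P1 {S₁ S₂ : Set I} (h : Split D S₁ S₂) {c : I →₀ ℤ} (hc : In (S₁ ∪ S₂) c) :
    c = P S₁ c + P S₂ c := by
  rw [← P_union h.disj, P_of_In hc]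

/-- `S₂`-component of `D_S c` only depends on the `S₂`-component of `c` -/
theorem Split.comp2 {S₁ S₂ : Set I} (h : Split D S₁ S₂) {c : I →₀ ℤ} (hc : In (S₁ ∪ S₂) c) :
    P S₂ (D c) = P S₂ (D (P S₂ c)) := by
  conv_lhs => rw [h.P1 hc]
  rw [map_add, map_add, h.no.P_eq_zero D (In_P S₁ c), zero_add]

theorem Split.cycle2 {S₁ S₂ : Set I} (h : Split D S₁ S₂) {c : I →₀ ℤ} (hc : In (S₁ ∪ S₂) c)
    (hz : P (S₁ ∪ S₂) (D c) = 0) : P S₂ (D (P S₂ c)) = 0 := by
  rw [← h.comp2 hc, ← P_P_of_subset (S := S₂) (T := S₁ ∪ S₂) Set.subset_union_right, hz, map_zero]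

theorem Split.on1 {S₁ S₂ : Set I} (h : Split D S₁ S₂) {c : I →₀ ℤ} (hc : In S₁ c) :
    P (S₁ ∪ S₂) (D c) = P S₁ (D c) := by
  rw [P_union h.disj, h.no.P_eq_zero D hc, add_zero]

/-- lift: if the `S₂` component is a boundary, subtract to land in `S₁` -/
theorem Split.lift {S₁ S₂ : Set I} (h : Split D S₁ S₂) {c e : I →₀ ℤ} (hc : In (S₁ ∪ S₂) c)
    (he : In S₂ e) (hce : P S₂ (D e) = P S₂ c) :
    In S₁ (c - P (S₁ ∪ S₂) (D e)) := by
  rw [In_iff_P]
  have hx : In (S₁ ∪ S₂) (c - P (S₁ ∪ S₂) (D e)) := hc.sub (In_P _ _)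
  have h2 : P S₂ (c - P (S₁ ∪ S₂) (D e)) = 0 := by
    rw [map_sub, P_P_of_subset Set.subset_union_right, hce, sub_self]
  have := h.P1 hx
  rw [h2, add_zero] at this
  exact this.symm

theorem Split.sub_cycle {S₁ S₂ : Set I} (h : Split D S₁ S₂) {c e : I →₀ ℤ}
    (hz : P (S₁ ∪ S₂) (D c) = 0) (he : In (S₁ ∪ S₂) e) :
    P (S₁ ∪ S₂) (D (c - P (S₁ ∪ S₂) (D e))) = 0 := by
  rw [map_sub, map_sub, hz, h.sq e he, sub_zero]

/-- (L3) -/
theorem Split.acy {S₁ S₂ : Set I} (h : Split D S₁ S₂) (h1 : Acy D S₁) (h2 : Acy D S₂) :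
    Acy D (S₁ ∪ S₂) := by
  intro c hc hz
  obtain ⟨e, he, hec⟩ := h2 (P S₂ c) (In_P _ _) (h.cycle2 hc hz)
  have he' : In (S₁ ∪ S₂) e := he.mono Set.subset_union_right
  have hl := h.lift hc he hec
  have hcyc := h.sub_cycle hz he'
  rw [h.on1 hl] at hcyc
  obtain ⟨g, hg, hgc⟩ := h1 _ hl hcyc
  refine ⟨g + e, (hg.mono Set.subset_union_left).add he', ?_⟩
  rw [map_add, map_add, h.on1 hg, hgc]
  abel

/-- (L1) quotient acyclic -/
theorem Split.tf_of_quot_acy {S₁ S₂ : Set I} (h : Split D S₁ S₂) (h2 : Acy D S₂)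
    (h1 : Tf D S₁) : Tf D (S₁ ∪ S₂) := by
  intro c hc hz n hn b hb hbc
  obtain ⟨e, he, hec⟩ := h2 (P S₂ c) (In_P _ _) (h.cycle2 hc hz)
  have he' : In (S₁ ∪ S₂) e := he.mono Set.subset_union_right
  have hl := h.lift hc he hec
  have hcyc := h.sub_cycle hz he'
  rw [h.on1 hl] at hcyc
  -- n • c' = D_S (b - n e)
  set c' := c - P (S₁ ∪ S₂) (D e) with hc'
  set b' := b - n • e with hb'
  have hb'In : In (S₁ ∪ S₂) b' := hb.sub (he'.smul n)
  have hDb' : P (S₁ ∪ S₂) (D b') = n • c' := by
    rw [hb', map_sub, map_sub, hbc, map_smul, map_smul, hc', smul_sub]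
  have hb2 : P S₂ (D (P S₂ b')) = 0 := by
    rw [← h.comp2 hb'In, ← P_P_of_subset (S := S₂) (T := S₁ ∪ S₂) Set.subset_union_right, hDb',
      map_smul, P_eq_zero_of_In h.disj.symm hl, smul_zero]
  obtain ⟨g, hg, hgc⟩ := h2 (P S₂ b') (In_P _ _) hb2
  have hg' : In (S₁ ∪ S₂) g := hg.mono Set.subset_union_right
  have hl2 := h.lift hb'In hg hgc
  have hDb'' : P S₁ (D (b' - P (S₁ ∪ S₂) (D g))) = n • c' := by
    rw [← h.on1 hl2, map_sub, map_sub, hDb', h.sq g hg', sub_zero]
  obtain ⟨a, ha, hac⟩ := h1 c' hl hcyc n hn _ hl2 hDb''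
  refine ⟨a + e, (ha.mono Set.subset_union_left).add he', ?_⟩
  rw [map_add, map_add, h.on1 ha, hac, hc']
  abel

/-- (L2) subcomplex acyclic -/
theorem Split.tf_of_sub_acy {S₁ S₂ : Set I} (h : Split D S₁ S₂) (h1 : Acy D S₁)
    (h2 : Tf D S₂) : Tf D (S₁ ∪ S₂) := by
  intro c hc hz n hn b hb hbc
  have hb2 : P S₂ (D (P S₂ b)) = n • P S₂ c := by
    rw [← h.comp2 hb, ← P_P_of_subset (S := S₂) (T := S₁ ∪ S₂) Set.subset_union_right, hbc,
      map_smul]
  obtain ⟨e, he, hec⟩ := h2 (P S₂ c) (In_P _ _) (h.cycle2 hc hz) n hn (P S₂ b) (In_P _ _) hb2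
  have he' : In (S₁ ∪ S₂) e := he.mono Set.subset_union_right
  have hl := h.lift hc he hec
  have hcyc := h.sub_cycle hz he'
  rw [h.on1 hl] at hcyc
  obtain ⟨g, hg, hgc⟩ := h1 _ hl hcyc
  refine ⟨g + e, (hg.mono Set.subset_union_left).add he', ?_⟩
  rw [map_add, map_add, h.on1 hg, hgc]
  abel

/-- (L4) total acyclic: torsion-freeness passes from the quotient to the subcomplex -/
theorem Split.tf_sub_of_acy {S₁ S₂ : Set I} (h : Split D S₁ S₂) (h0 : Acy D (S₁ ∪ S₂))
    (h2 : Tf D S₂) : Tf D S₁ := by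
  intro c hc hz n hn b hb hbc
  have hc' : In (S₁ ∪ S₂) c := hc.mono Set.subset_union_left
  have hb' : In (S₁ ∪ S₂) b := hb.mono Set.subset_union_left
  obtain ⟨e, he, hec⟩ := h0 c hc' (by rw [h.on1 hc]; exact hz)
  have he2 : P S₂ (D (P S₂ e)) = 0 := by
    rw [← h.comp2 he, ← P_P_of_subset (S := S₂) (T := S₁ ∪ S₂) Set.subset_union_right, hec,
      P_eq_zero_of_In h.disj.symm hc]
  have hcyc : P (S₁ ∪ S₂) (D (n • e - b)) = 0 := by
    rw [map_sub, map_sub, map_smul, map_smul, hec, h.on1 hb, hbc, sub_self]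
  obtain ⟨g, hg, hgc⟩ := h0 (n • e - b) ((he.smul n).sub hb') hcyc
  have hg2 : P S₂ (D (P S₂ g)) = n • P S₂ e := by
    rw [← h.comp2 hg, ← P_P_of_subset (S := S₂) (T := S₁ ∪ S₂) Set.subset_union_right, hgc,
      map_sub, map_smul, P_eq_zero_of_In h.disj.symm hb, sub_zero]
  obtain ⟨k, hk, hkc⟩ := h2 (P S₂ e) (In_P _ _) he2 n hn (P S₂ g) (In_P _ _) hg2
  have hk' : In (S₁ ∪ S₂) k := hk.mono Set.subset_union_right
  have hl := h.lift he hk hkc
  refine ⟨_, hl, ?_⟩
  rw [← h.on1 hl, map_sub, map_sub, hec, h.sq k hk', sub_zero]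

theorem Split.sq1 {S₁ S₂ : Set I} (h : Split D S₁ S₂) : Sq D S₁ := by
  intro c hc
  have h1 := h.sq c (hc.mono Set.subset_union_left)
  rw [h.on1 hc, h.on1 (In_P _ _)] at h1
  exact h1

theorem Split.sq2 {S₁ S₂ : Set I} (h : Split D S₁ S₂) : Sq D S₂ := by
  intro c hc
  have hc' : In (S₁ ∪ S₂) c := hc.mono Set.subset_union_right
  have h1 := congrArg (P S₂) (h.sq c hc')
  rw [P_P_of_subset Set.subset_union_right, map_zero, h.comp2 (In_P _ _),
    P_P_of_subset Set.subset_union_right] at h1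
  exact h1

theorem acy_empty : Acy D (∅ : Set I) := by
  intro c hc _
  refine ⟨0, In_zero _, ?_⟩
  have : c = 0 := by ext i; exact hc i (by simp)
  rw [this, map_zero, map_zero]

theorem tf_of_acy {S : Set I} (h : Acy D S) : Tf D S := fun c hc hz _ _ _ _ _ => h c hc hz

theorem tf_empty : Tf D (∅ : Set I) := tf_of_acy acy_empty

/-- the support of `D (single i 1)` controls `NoMap` -/
theorem Acy.congr {S T : Set I} (h : S = T) (hS : Acy D S) : Acy D T := h ▸ hS

theorem Tf.congr {S T : Set I} (h : S = T) (hS : Tf D S) : Tf D T := h ▸ hS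

/-- (L5) filtration lemma: blocks `θ = q`, rank `r`; all blocks acyclic implies acyclic -/
theorem acy_of_blocks {Q : Type*} {S : Set I} (hsq : Sq D S) (θ : I → Q) (r : Q → ℕ)
    (mono : ∀ i ∈ S, ∀ j ∈ S, D (Finsupp.single i 1) j ≠ 0 → θ j = θ i ∨ r (θ j) < r (θ i))
    (hblk : ∀ q, Acy D {i | i ∈ S ∧ θ i = q}) : Acy D S := by
  classical
  -- strong statement by induction on a bound for the rank
  have key : ∀ N : ℕ, ∀ c, In S c → P S (D c) = 0 → (∀ i ∈ c.support, r (θ i) < N) →
      ∃ b, In S b ∧ P S (D b) = c := by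
    intro N
    induction N with
    | zero =>
      intro c hc _ hN
      have : c = 0 := by
        ext i
        by_contra hne
        exact absurd (hN i (by simpa using hne)) (by omega)
      exact ⟨0, In_zero _, by rw [this, map_zero, map_zero]⟩
    | succ N ih =>
      intro c hc hz hN
      -- the blocks of top rank
      let Qs : Finset Q := (c.support.image θ).filter (fun q => r q = N)
      have hcyc : ∀ q ∈ Qs, P {i | i ∈ S ∧ θ i = q} (D (P {i | i ∈ S ∧ θ i = q} c)) = 0 := by
        intro q hq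
        have hqN : r q = N := (Finset.mem_filter.mp hq).2
        ext j
        rw [P_apply]
        split_ifs with hj
        · have hzj : P S (D c) j = 0 := by rw [hz]; rfl
          rw [P_apply, if_pos hj.1] at hzj
          have : D (P {i | i ∈ S ∧ θ i = q} c) j = D c j := by
            rw [D_apply_eq D c j, D_apply_eq D (P _ c) j]
            rw [Finsupp.sum, Finsupp.sum]
            apply Finset.sum_subset_zero_on_sdiff
            · intro i hi
              rw [Finsupp.mem_support_iff, P_apply] at hi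
              rw [Finsupp.mem_support_iff]
              intro h0; rw [h0] at hi; simp at hi
            · intro i hi
              rw [Finset.mem_sdiff, Finsupp.mem_support_iff, Finsupp.mem_support_iff,
                not_not, P_apply] at hi
              have hiS : i ∈ S := by
                by_contra hni; exact hi.1 (hc i hni)
              have hne : θ i ≠ q := by
                intro he; rw [if_pos ⟨hiS, he⟩] at hi; exact hi.1 hi.2
              by_contra hcon
              have h1 : D (Finsupp.single i 1) j ≠ 0 := fun h0 => hcon (by rw [h0, mul_zero])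
              rcases mono i hiS j hj.1 h1 with h2 | h2
              · exact hne (h2 ▸ hj.2)
              · have h3 := hN i (Finsupp.mem_support_iff.mpr hi.1)
                rw [hj.2, hqN] at h2
                omega
            · intro i hi
              have hi' : i ∈ {i | i ∈ S ∧ θ i = q} := by
                by_contra hni
                rw [Finsupp.mem_support_iff, P_apply, if_neg hni] at hi
                exact hi rfl
              rw [P_apply, if_pos hi']
          rw [this, hzj]; rfl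
        · rfl
      have hex : ∀ q : Q, ∃ b, In {i | i ∈ S ∧ θ i = q} b ∧
          (q ∈ Qs → P {i | i ∈ S ∧ θ i = q} (D b) = P {i | i ∈ S ∧ θ i = q} c) := by
        intro q
        by_cases hq : q ∈ Qs
        · obtain ⟨b, hb, hbc⟩ := hblk q _ (In_P _ _) (hcyc q hq)
          exact ⟨b, hb, fun _ => hbc⟩
        · exact ⟨0, In_zero _, fun h => absurd h hq⟩
      choose bq hbq hbqc using hex
      let b : I →₀ ℤ := ∑ q ∈ Qs, bq q
      have hbS : In S b := by
        intro i hi
        simp only [b, Finsupp.finsetSum_apply]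
        apply Finset.sum_eq_zero
        intro q _
        exact hbq q i (fun h => hi h.1)
      have hnew : ∀ i ∈ (c - P S (D b)).support, r (θ i) < N := by
        intro i hi
        rw [Finsupp.mem_support_iff, Finsupp.sub_apply, P_apply] at hi
        by_contra hlt
        rw [not_lt] at hlt
        apply hi
        have hiS : i ∈ S := by
          by_contra hni
          rw [hc i hni, if_neg hni] at hi; exact hi (by simp)
        rw [if_pos hiS]
        have hDb : D b i = ∑ q ∈ Qs, D (bq q) i := by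
          simp only [b, map_sum, Finsupp.finsetSum_apply]
        rw [hDb]
        -- contributions: only from q = θ i
        have hterm : ∀ q ∈ Qs, q ≠ θ i → D (bq q) i = 0 := by
          intro q hq hne
          rw [D_apply_eq D (bq q) i]
          apply Finset.sum_eq_zero
          intro k hk
          have hk' : k ∈ {i | i ∈ S ∧ θ i = q} := by
            by_contra hni
            exact (Finsupp.mem_support_iff.mp hk) (hbq q k hni)
          by_contra hcon
          have h1 : D (Finsupp.single k 1) i ≠ 0 := by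
            intro h0; apply hcon; show _ * _ = _; rw [h0, mul_zero]
          have hqN : r q = N := (Finset.mem_filter.mp hq).2
          rcases mono k hk'.1 i hiS h1 with h2 | h2
          · exact hne (by rw [h2, hk'.2])
          · rw [hk'.2, hqN] at h2; omega
        by_cases hmem : θ i ∈ Qs
        · rw [Finset.sum_eq_single (θ i) (fun q hq hne => hterm q hq hne)
            (fun h => absurd hmem h)]
          have := congrArg (fun f => f i) (hbqc (θ i) hmem)
          simp only [P_apply] at this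
          rw [if_pos (show i ∈ {j | j ∈ S ∧ θ j = θ i} from ⟨hiS, rfl⟩),
            if_pos (show i ∈ {j | j ∈ S ∧ θ j = θ i} from ⟨hiS, rfl⟩)] at this
          rw [this, sub_self]
        · rw [Finset.sum_eq_zero (fun q hq => hterm q hq (fun h => hmem (h ▸ hq))), sub_zero]
          by_contra hci
          have h3 : i ∈ c.support := Finsupp.mem_support_iff.mpr hci
          have h4 := hN i h3
          apply hmem
          rw [Finset.mem_filter]
          exact ⟨Finset.mem_image_of_mem _ h3, by omega⟩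
      have hcyc2 : P S (D (c - P S (D b))) = 0 := by
        rw [map_sub, map_sub, hz, hsq b hbS, sub_zero]
      obtain ⟨b', hb', hb'c⟩ := ih (c - P S (D b)) (hc.sub (In_P _ _)) hcyc2 hnew
      refine ⟨b' + b, hb'.add hbS, ?_⟩
      rw [map_add, map_add, hb'c]
      abel
  intro c hc hz
  refine key (c.support.sup (fun i => r (θ i)) + 1) c hc hz ?_
  intro i hi
  exact Nat.lt_succ_of_le (Finset.le_sup (f := fun i => r (θ i)) hi)

/-- (L9) all blocks but one acyclic -/
theorem tf_of_blocks {Q : Type*} {S : Set I} (hsq : Sq D S) (θ : I → Q) (r : Q → ℕ)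
    (mono : ∀ i ∈ S, ∀ j ∈ S, D (Finsupp.single i 1) j ≠ 0 → θ j = θ i ∨ r (θ j) < r (θ i))
    (q₀ : Q) (hblk : ∀ q, q ≠ q₀ → Acy D {i | i ∈ S ∧ θ i = q})
    (h0 : Tf D {i | i ∈ S ∧ θ i = q₀}) : Tf D S := by
  -- low part
  let Slow : Set I := {i | i ∈ S ∧ r (θ i) ≤ r q₀ ∧ θ i ≠ q₀}
  let Smid : Set I := {i | i ∈ S ∧ θ i = q₀}
  let Shi : Set I := {i | i ∈ S ∧ r q₀ < r (θ i)}
  have e1 : Smid ∪ Shi ⊆ S := by
    rintro i (h | h)
    · exact h.1
    · exact h.1
  have hS : S = Slow ∪ (Smid ∪ Shi) := by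
    ext i
    constructor
    · intro hi
      by_cases h1 : θ i = q₀
      · exact Or.inr (Or.inl ⟨hi, h1⟩)
      · by_cases h2 : r (θ i) ≤ r q₀
        · exact Or.inl ⟨hi, h2, h1⟩
        · exact Or.inr (Or.inr ⟨hi, by omega⟩)
    · rintro (h | h)
      · exact h.1
      · exact e1 h
  have hd1 : Disjoint Slow (Smid ∪ Shi) := by
    rw [Set.disjoint_left]
    rintro i h1 (h2 | h2)
    · exact h1.2.2 h2.2
    · have := h1.2.1; have := h2.2; omega
  have hd2 : Disjoint Smid Shi := by
    rw [Set.disjoint_left]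
    rintro i h1 h2
    have := h1.2; have h3 := h2.2; rw [this] at h3; omega
  have sp1 : Split D Slow (Smid ∪ Shi) := by
    refine ⟨hd1, ?_, hS ▸ hsq⟩
    intro i hi j hj
    by_contra hne
    rcases mono i hi.1 j (e1 hj) hne with h | h
    · rcases hj with hj | hj
      · exact hi.2.2 (by rw [← h, hj.2])
      · have := hj.2; have := hi.2.1; rw [h] at *; omega
    · rcases hj with hj | hj
      · rw [hj.2] at h; have := hi.2.1; omega
      · have := hj.2; have := hi.2.1; omega
  have sp2 : Split D Smid Shi := by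
    refine ⟨hd2, ?_, sp1.sq2⟩
    intro i hi j hj
    by_contra hne
    rcases mono i hi.1 j hj.1 hne with h | h
    · have h3 := hj.2; rw [h, hi.2] at h3; omega
    · have h3 := hj.2; rw [hi.2] at h; omega
  have a1 : Acy D Slow := by
    refine acy_of_blocks sp1.sq1 θ r
      (fun i hi j hj hne => mono i hi.1 j hj.1 hne) ?_
    intro q
    by_cases hq : q ≠ q₀ ∧ r q ≤ r q₀
    · refine (hblk q hq.1).congr ?_
      ext i
      constructor
      · intro h; exact ⟨⟨h.1, by rw [h.2]; exact hq.2, by rw [h.2]; exact hq.1⟩, h.2⟩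
      · intro h; exact ⟨h.1.1, h.2⟩
    · refine acy_empty.congr ?_
      ext i
      constructor
      · intro h; exact absurd h (by simp)
      · intro h
        exact absurd ⟨h.2 ▸ h.1.2.2, h.2 ▸ h.1.2.1⟩ hq
  have a2 : Acy D Shi := by
    refine acy_of_blocks sp2.sq2 θ r
      (fun i hi j hj hne => mono i hi.1 j hj.1 hne) ?_
    intro q
    by_cases hq : r q₀ < r q
    · refine (hblk q (by rintro rfl; omega)).congr ?_
      ext i
      constructor
      · intro h; exact ⟨⟨h.1, by rw [h.2]; exact hq⟩, h.2⟩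
      · intro h; exact ⟨h.1.1, h.2⟩
    · refine acy_empty.congr ?_
      ext i
      constructor
      · intro h; exact absurd h (by simp)
      · intro h
        exact absurd (h.2 ▸ h.1.2) hq
  rw [hS]
  exact sp1.tf_of_sub_acy a1 (sp2.tf_of_quot_acy a2 h0)

/-- the blocks of a filtration inherit `D² = 0` -/
theorem sq_block {Q : Type*} {S : Set I} (hsq : Sq D S) (θ : I → Q) (r : Q → ℕ)
    (mono : ∀ i ∈ S, ∀ j ∈ S, D (Finsupp.single i 1) j ≠ 0 → θ j = θ i ∨ r (θ j) < r (θ i))
    (q₀ : Q) : Sq D {i | i ∈ S ∧ θ i = q₀} := by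
  let Slow : Set I := {i | i ∈ S ∧ r (θ i) ≤ r q₀ ∧ θ i ≠ q₀}
  let Smid : Set I := {i | i ∈ S ∧ θ i = q₀}
  let Shi : Set I := {i | i ∈ S ∧ r q₀ < r (θ i)}
  have e1 : Smid ∪ Shi ⊆ S := by
    rintro i (h | h)
    · exact h.1
    · exact h.1
  have hS : S = Slow ∪ (Smid ∪ Shi) := by
    ext i
    constructor
    · intro hi
      by_cases h1 : θ i = q₀
      · exact Or.inr (Or.inl ⟨hi, h1⟩)
      · by_cases h2 : r (θ i) ≤ r q₀
        · exact Or.inl ⟨hi, h2, h1⟩
        · exact Or.inr (Or.inr ⟨hi, by omega⟩)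
    · rintro (h | h)
      · exact h.1
      · exact e1 h
  have hd1 : Disjoint Slow (Smid ∪ Shi) := by
    rw [Set.disjoint_left]
    rintro i h1 (h2 | h2)
    · exact h1.2.2 h2.2
    · have := h1.2.1; have := h2.2; omega
  have hd2 : Disjoint Smid Shi := by
    rw [Set.disjoint_left]
    rintro i h1 h2
    have := h1.2; have h3 := h2.2; rw [this] at h3; omega
  have sp1 : Split D Slow (Smid ∪ Shi) := by
    refine ⟨hd1, ?_, hS ▸ hsq⟩
    intro i hi j hj
    by_contra hne
    rcases mono i hi.1 j (e1 hj) hne with h | h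
    · rcases hj with hj | hj
      · exact hi.2.2 (by rw [← h, hj.2])
      · have := hj.2; have := hi.2.1; rw [h] at *; omega
    · rcases hj with hj | hj
      · rw [hj.2] at h; have := hi.2.1; omega
      · have := hj.2; have := hi.2.1; omega
  have sp2 : Split D Smid Shi := by
    refine ⟨hd2, ?_, sp1.sq2⟩
    intro i hi j hj
    by_contra hne
    rcases mono i hi.1 j hj.1 hne with h | h
    · have h3 := hj.2; rw [h, hi.2] at h3; omega
    · have h3 := hj.2; rw [hi.2] at h; omega
  exact sp2.sq1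

end General

end H61Mag
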