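import Mathlib

/-!
Sign vectors, covector systems, real hyperplane arrangements and their tope graphs.
-/

namespace H61Mag

section Signs

variable {ι : Type*} [Fintype ι] [DecidableEq ι]

/-- sign vectors -/
abbrev Sg (ι : Type*) := ι → SignType

/-- zero set -/
def z (X : Sg ι) : Finset ι := Finset.univ.filter (fun i => X i = 0)

/-- composition -/
def comp (X Y : Sg ι) : Sg ι := fun i => if X i = 0 then Y i else X i

/-- `le Y X`: `Y` is a face of `X` -/
def le (Y X : Sg ι) : Prop := ∀ i, Y i = 0 ∨ Y i = X i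

/-- the set of coordinates where `X` and `Y` differ -/
def sep (X Y : Sg ι) : Finset ι := Finset.univ.filter (fun i => X i ≠ Y i)

/-- the properties of a set of covectors that we use -/
structure OM (Cov : Set (Sg ι)) : Prop where
  neg : ∀ X ∈ Cov, -X ∈ Cov
  comp : ∀ X ∈ Cov, ∀ Y ∈ Cov, comp X Y ∈ Cov
  wall : ∀ X ∈ Cov, ∀ Z ∈ Cov, z X = z Z → X ≠ Z →
    ∃ Y ∈ Cov, le Y Z ∧ z Z ⊂ z Y ∧ z Y \ z Z ⊆ sep X Z ∧
      ∀ W ∈ Cov, z Z ⊆ z W → (∃ i ∈ z Y \ z Z, W i = 0) → z Y ⊆ z W

/-- the sign vector of a point with respect to a family of linear forms -/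
noncomputable def sgn {E : Type*} [AddCommGroup E] [Module ℝ E]
    (f : ι → Module.Dual ℝ E) (v : E) : Sg ι := fun i => SignType.sign (f i v)

end Signs

/-- A (central) hyperplane arrangement in `ℝ^d`: a finite set of linear hyperplanes. -/
structure Arrangement (d : ℕ) where
  planes : Finset (Submodule ℝ (Fin d → ℝ))
  hyper : ∀ H ∈ planes, Module.finrank ℝ H + 1 = d

namespace Arrangement

variable {d : ℕ} (A : Arrangement d)

/-- the complement of the union of the hyperplanes -/
def compl : Set (Fin d → ℝ) := {v | ∀ H ∈ A.planes, v ∉ H}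

/-- chambers: the connected components of the complement -/
def Chamber : Type := {C : Set (Fin d → ℝ) // ∃ p ∈ A.compl, C = connectedComponentIn A.compl p}

/-- the hyperplane `H` separates the chambers `C` and `C'`: they lie (strictly) on opposite
sides of `H` -/
def Separates (H : Submodule ℝ (Fin d → ℝ)) (C C' : A.Chamber) : Prop :=
  ∃ f : Module.Dual ℝ (Fin d → ℝ), LinearMap.ker f = H ∧ (∀ p ∈ C.1, 0 < f p) ∧
    (∀ q ∈ C'.1, f q < 0)

/-- the tope graph: chambers, adjacent when exactly one hyperplane separates them -/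
def topeGraph : SimpleGraph A.Chamber where
  Adj C C' := ∃! H, H ∈ A.planes ∧ A.Separates H C C'
  symm := by
    constructor
    rintro C C' ⟨H, ⟨hH, f, hf, h1, h2⟩, huniq⟩
    refine ⟨H, ⟨hH, -f, ?_, ?_, ?_⟩, ?_⟩
    · rw [← hf]; ext v; simp
    · intro p hp; simpa using h2 p hp
    · intro q hq; simpa using h1 q hq
    · rintro H' ⟨hH', g, hg, g1, g2⟩
      refine huniq H' ⟨hH', -g, ?_, ?_, ?_⟩
      · rw [← hg]; ext v; simp
      · intro p hp; simpa using g2 p hp
      · intro q hq; simpa using g1 q hq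
  loopless := by
    constructor
    rintro ⟨C, p, hp, rfl⟩ ⟨H, ⟨hH, f, hf, h1, h2⟩, -⟩
    have hmem : p ∈ connectedComponentIn A.compl p := mem_connectedComponentIn hp
    exact absurd (h1 p hmem) (not_lt.mpr (h2 p hmem).le)

end Arrangement

/-- (C1) the sign vectors of a family of linear forms are a covector system -/
def S_C1 : Prop := ∀ (ι : Type) [Fintype ι] [DecidableEq ι] (E : Type) [AddCommGroup E]
  [Module ℝ E] (f : ι → Module.Dual ℝ E), OM (Set.range (sgn f))

/-- (C2) chambers are the sign vectors without zeros, the graph distance counts separating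
hyperplanes -/
def S_C2 : Prop := ∀ (d : ℕ) (A : Arrangement d),
  ∃ (f : A.planes → Module.Dual ℝ (Fin d → ℝ)) (χ : A.Chamber → Sg A.planes),
    Function.Injective χ ∧
    (∀ s : Sg A.planes, s ∈ Set.range χ ↔ (s ∈ Set.range (sgn f) ∧ z s = ∅)) ∧
    (∀ C C' : A.Chamber, (A.topeGraph).dist C C' = (sep (χ C) (χ C')).card)

end H61Mag
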