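import Pool.Agent.E8helper61.Mag.OMDefs

/-!
(G1): the complex of chains of faces of `X` visible from `Z` is acyclic.
-/

namespace H61Mag

section ListLemmas

variable {α : Type*}

theorem dropWhile_Del (p : α → Bool) {l l' : List α} (h : Del l l') :
    l'.dropWhile p = l.dropWhile p ∨ (l'.dropWhile p).length < (l.dropWhile p).length := by
  induction l generalizing l' with
  | nil => exact absurd h not_Del_nil
  | cons a l ih =>
    rcases Del_cons_iff.mp h with rfl | ⟨l'', h1, rfl⟩
    · by_cases hp : p a = true
      · left; simp [List.dropWhile_cons, hp]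
      · right
        simp only [List.dropWhile_cons, hp]
        have := (List.dropWhile_sublist p (l := l')).length_le
        simp; omega
    · by_cases hp : p a = true
      · simpa [List.dropWhile_cons, hp] using ih h1
      · right
        have := h1.length
        simp [List.dropWhile_cons, hp]; omega

theorem dropWhile_append_all (p : α → Bool) (c t : List α) (h : ∀ a ∈ c, p a = true) :
    (c ++ t).dropWhile p = t.dropWhile p := by
  induction c with
  | nil => rfl
  | cons a c ih =>
    rw [List.cons_append, List.dropWhile_cons, if_pos (h a (by simp))]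
    exact ih (fun b hb => h b (by simp [hb]))

theorem dropWhile_all (p : α → Bool) (c : List α) (h : ∀ a ∈ c, p a = true) :
    c.dropWhile p = [] := by
  have := dropWhile_append_all p c [] h
  simpa using this

theorem all_of_dropWhile_nil (p : α → Bool) (c : List α) (h : c.dropWhile p = []) :
    ∀ a ∈ c, p a = true := by
  induction c with
  | nil => simp
  | cons a c ih =>
    rw [List.dropWhile_cons] at h
    by_cases hp : p a = true
    · rw [if_pos hp] at h
      intro b hb
      rcases List.mem_cons.mp hb with rfl | hb
      · exact hp
      · exact ih h b hb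
    · rw [if_neg hp] at h; exact absurd h (by simp)

theorem exists_take (p : α → Bool) (l : List α) :
    ∃ c, l = c ++ l.dropWhile p ∧ ∀ a ∈ c, p a = true := by
  refine ⟨l.takeWhile p, (List.takeWhile_append_dropWhile).symm, ?_⟩
  intro a ha
  exact List.mem_takeWhile_imp ha

theorem dropWhile_head (p : α → Bool) (l : List α) (a : α) (t : List α)
    (h : l.dropWhile p = a :: t) : ¬ p a = true := by
  induction l with
  | nil => simp at h
  | cons b l ih =>
    rw [List.dropWhile_cons] at h
    by_cases hp : p b = true
    · rw [if_pos hp] at h; exact ih h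
    · rw [if_neg hp] at h
      have : b = a := by simpa using (List.cons.inj h).1
      rw [← this]; exact hp

end ListLemmas

variable {ι : Type*} [Fintype ι] [DecidableEq ι]

theorem Ch_sublist {Cov : Set (Sg ι)} {X : Sg ι} {S : Finset ι} {l l' : List (Sg ι)}
    (h : l ∈ Ch Cov X S) (h' : l'.Sublist l) : l' ∈ Ch Cov X S :=
  ⟨fun F hF => h.1 F (h'.subset hF), h.2.sublist h'⟩

theorem sign_eq_neg {a b : SignType} (ha : a ≠ 0) (hb : b ≠ 0) (hab : a ≠ b) : a = -b := by
  revert a b; decide

theorem acy_Ch {Cov : Set (Sg ι)} (h : OM Cov) : ∀ n : ℕ, ∀ X ∈ Cov, ∀ Z ∈ Cov, z X = z Z →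
    X ≠ Z → (sep X Z).card ≤ n → Acy Dl (Ch Cov X (sep X Z)) := by
  intro n
  induction n with
  | zero =>
    intro X _ Z _ _ hne hc
    exfalso
    apply hne
    have h0 : sep X Z = ∅ := Finset.card_eq_zero.mp (by omega)
    funext i
    by_contra hi
    have : i ∈ sep X Z := mem_sep.mpr hi
    rw [h0] at this; simp at this
  | succ n ih =>
    intro X hX Z hZ hz hne hcard
    obtain ⟨Y, hY, hYZ, hzY, hYsep, hcls⟩ := h.wall X hX Z hZ hz hne
    obtain ⟨i₀, hi₀Y, hi₀Z⟩ := Finset.exists_of_ssubset hzY
    have hi₀ : i₀ ∈ z Y \ z Z := Finset.mem_sdiff.mpr ⟨hi₀Y, hi₀Z⟩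
    -- Z'
    have hZ' : comp Y (-Z) ∈ Cov := h.comp Y hY _ (h.neg Z hZ)
    set Z' := comp Y (-Z) with hZ'def
    have hzZ' : z Z' = z X := by
      rw [hZ'def, z_comp, z_neg, hz]
      exact Finset.inter_eq_right.mpr hzY.1
    have hsep' : sep X Z' = sep X Z \ z Y := by
      ext i
      rw [Finset.mem_sdiff, mem_sep, mem_sep, mem_z]
      by_cases hYi : Y i = 0
      · simp only [hYi, not_true_eq_false, and_false, iff_false, not_not]
        have e1 : Z' i = - Z i := by simp [hZ'def, comp, hYi]
        rw [e1]
        by_cases hZi : i ∈ z Z
        · have h1 := mem_z.mp hZi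
          have h2 := mem_z.mp (hz ▸ hZi)
          rw [h1, h2]; rfl
        · have hin : i ∈ z Y \ z Z := Finset.mem_sdiff.mpr ⟨mem_z.mpr hYi, hZi⟩
          have h1 := mem_sep.mp (hYsep hin)
          have h2 : Z i ≠ 0 := fun h0 => hZi (mem_z.mpr h0)
          have h3 : X i ≠ 0 := fun h0 => hZi (hz ▸ mem_z.mpr h0)
          exact sign_eq_neg h3 h2 h1
      · have e1 : Z' i = Z i := by
          have := (hYZ i).resolve_left hYi
          simp [hZ'def, comp, hYi, this]
        rw [e1]; simp [hYi]
    have hi₀sep : i₀ ∈ sep X Z := hYsep hi₀
    have hcard' : (sep X Z \ z Y).card ≤ n := by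
      have : (sep X Z \ z Y).card < (sep X Z).card := by
        apply Finset.card_lt_card
        rw [Finset.ssubset_iff_of_subset Finset.sdiff_subset]
        exact ⟨i₀, hi₀sep, fun h0 => (Finset.mem_sdiff.mp h0).2 hi₀Y⟩
      omega
    have hzXY : z X ⊂ z Y := hz ▸ hzY
    by_cases hcase : Z' = X
    · -- base case
      have hYX : le Y X := hcase ▸ (hZ'def ▸ le_comp Y (-Z))
      have hsub : sep X Z ⊆ z Y := by
        rw [hcase] at hsep'
        have h0 : sep X X = ∅ := by ext i; rw [mem_sep]; simp
        rw [h0] at hsep'
        intro i hi
        by_contra hni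
        have : i ∈ sep X Z \ z Y := Finset.mem_sdiff.mpr ⟨hi, hni⟩
        rw [← hsep'] at this; simp at this
      have hall : ∀ F, F ∈ Cov → le F X → z X ⊂ z F → z F \ z X ⊆ sep X Z → F = Y := by
        intro F hF hFX hlt hs
        obtain ⟨j, hj1, hj2⟩ := Finset.exists_of_ssubset hlt
        have hj3 : j ∈ z F \ z X := Finset.mem_sdiff.mpr ⟨hj1, hj2⟩
        have hj4 : j ∈ z Y \ z Z := Finset.mem_sdiff.mpr ⟨hsub (hs hj3), hz ▸ hj2⟩
        have h1 : z Y ⊆ z F := hcls F hF (hz ▸ hlt.1) ⟨j, hj4, mem_z.mp hj1⟩
        have h2 : z F ⊆ z Y := by
          intro k hk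
          by_cases hkX : k ∈ z X
          · exact hzXY.1 hkX
          · exact hsub (hs (Finset.mem_sdiff.mpr ⟨hk, hkX⟩))
        exact eq_of_le_z hFX hYX (Finset.Subset.antisymm h2 h1)
      refine acy_pair [] [] Y (by simp) (by simp) ?_ ?_
      · intro l hl
        simp only [List.nil_append]
        match l, hl with
        | [], _ => exact Or.inl rfl
        | [a], hl =>
          right
          obtain ⟨h1, h2, h3, h4⟩ := hl.1 a (by simp)
          rw [hall a h1 h2 h3 h4]
        | (a :: b :: l), hl =>
          exfalso
          obtain ⟨h1, h2, h3, h4⟩ := hl.1 a (by simp)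
          obtain ⟨g1, g2, g3, g4⟩ := hl.1 b (by simp)
          have h5 := hall a h1 h2 h3 h4
          have g5 := hall b g1 g2 g3 g4
          have := (List.pairwise_cons.mp hl.2).1 b (by simp)
          rw [h5, g5] at this
          exact this.2 (Finset.Subset.refl _)
      · simp only [List.nil_append]
        constructor
        · intro _
          refine ⟨?_, by simp⟩
          intro F hF
          rw [List.mem_singleton] at hF
          subst hF
          exact ⟨hY, hYX, hzXY, by rw [hz]; exact hYsep⟩
        · intro _
          exact ⟨by simp, by simp⟩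
    · -- induction
      have hne' : X ≠ Z' := fun h0 => hcase h0.symm
      have hsepne : ∃ j, j ∈ sep X Z \ z Y := by
        rw [← hsep']
        by_contra hno
        push Not at hno
        apply hne'
        funext i
        by_contra hi
        exact hno i (mem_sep.mpr hi)
      -- key equivalence for faces not containing the class
      have keyA : ∀ F, F ∈ Cov → z X ⊂ z F → z F \ z X ⊆ sep X Z → ¬ z Y ⊆ z F →
          z F \ z X ⊆ sep X Z \ z Y := by
        intro F hF hlt hs hnot i hi
        refine Finset.mem_sdiff.mpr ⟨hs hi, fun hiY => hnot ?_⟩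
        refine hcls F hF (hz ▸ hlt.1) ⟨i, Finset.mem_sdiff.mpr ⟨hiY, ?_⟩, ?_⟩
        · rw [← hz]; exact (Finset.mem_sdiff.mp hi).2
        · exact mem_z.mp (Finset.mem_sdiff.mp hi).1
      have keyB : ∀ F : Sg ι, z F \ z X ⊆ sep X Z \ z Y → ¬ z Y ⊆ z F := by
        intro F hs hnot
        have : i₀ ∈ z F \ z X := Finset.mem_sdiff.mpr ⟨hnot hi₀Y, hz ▸ hi₀Z⟩
        exact (Finset.mem_sdiff.mp (hs this)).2 hi₀Y
      let S1 : Set (List (Sg ι)) := {l | l ∈ Ch Cov X (sep X Z) ∧ ∀ F ∈ l, z F ≠ z Y}
      let S2 : Set (List (Sg ι)) := {l | l ∈ Ch Cov X (sep X Z) ∧ ∃ F ∈ l, z F = z Y}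
      have hS : Ch Cov X (sep X Z) = S1 ∪ S2 := by
        ext l
        constructor
        · intro hl
          by_cases h1 : ∃ F ∈ l, z F = z Y
          · exact Or.inr ⟨hl, h1⟩
          · left; refine ⟨hl, ?_⟩
            intro F hF h2; exact h1 ⟨F, hF, h2⟩
        · rintro (h1 | h1)
          · exact h1.1
          · exact h1.1
      have hsp : Split Dl S1 S2 := by
        refine split_of ?_ ?_ ?_
        · rw [Set.disjoint_left]
          rintro l ⟨_, h1⟩ ⟨_, F, hF, h2⟩
          exact h1 F hF h2
        · rintro l ⟨_, h1⟩ l' ⟨_, F, hF, h2⟩ hdel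
          exact h1 F (hdel.sublist.subset hF) h2
        · rw [← hS]
          intro l hl l' hd _ _ _
          exact Ch_sublist hl hd.sublist
      rw [hS]
      refine hsp.acy ?_ ?_
      · -- S1
        classical
        let p : Sg ι → Bool := fun F => decide (¬ z Y ⊆ z F)
        have hp : ∀ F, p F = true ↔ ¬ z Y ⊆ z F := fun F => by simp [p]
        refine acy_of_blocks hsp.sq1 (fun l => l.dropWhile p) List.length ?_ ?_
        · intro l _ l' _ hne
          exact dropWhile_Del p (Del_of_Dl_ne hne)
        · intro ρ
          by_cases hex : ∃ l₀, l₀ ∈ S1 ∧ l₀.dropWhile p = ρ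
          swap
          · refine acy_empty.congr ?_
            ext l
            constructor
            · intro h0; exact absurd h0 (by simp)
            · intro h0; exact absurd ⟨l, h0⟩ hex
          obtain ⟨l₀, hl₀, hρ⟩ := hex
          cases hρc : ρ with
          | nil =>
            have hIH := ih X hX Z' hZ' hzZ'.symm hne' (by rw [hsep']; exact hcard')
            rw [hsep'] at hIH
            refine hIH.congr ?_
            ext l
            constructor
            · intro hl
              have h1 : ∀ F ∈ l, ¬ z Y ⊆ z F := fun F hF => keyB F (hl.1 F hF).2.2.2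
              refine ⟨⟨⟨?_, hl.2⟩, ?_⟩, ?_⟩
              · intro F hF
                obtain ⟨a1, a2, a3, a4⟩ := hl.1 F hF
                exact ⟨a1, a2, a3, a4.trans Finset.sdiff_subset⟩
              · intro F hF h2
                exact h1 F hF (h2 ▸ Finset.Subset.refl _)
              · exact dropWhile_all p l (fun F hF => (hp F).mpr (h1 F hF))
            · rintro ⟨⟨hl, _⟩, h2⟩
              have h3 := all_of_dropWhile_nil p l h2
              refine ⟨?_, hl.2⟩
              intro F hF
              obtain ⟨a1, a2, a3, a4⟩ := hl.1 F hF
              exact ⟨a1, a2, a3, keyA F a1 a3 a4 ((hp F).mp (h3 F hF))⟩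
          | cons D ρ' =>
            subst hρc
            obtain ⟨c₀, hc₀, _⟩ := exists_take p l₀
            rw [hρ] at hc₀
            have hsubρ : (D :: ρ').Sublist l₀ := by
              rw [hc₀]; exact List.sublist_append_right c₀ (D :: ρ')
            have hρCh := Ch_sublist hl₀.1 hsubρ
            obtain ⟨hD, hDX, hXD, hDs⟩ := hρCh.1 D (by simp)
            have hYD : z Y ⊆ z D := by
              have := dropWhile_head p l₀ D ρ' hρ
              rw [hp] at this; exact not_not.mp this
            have hDne : z D ≠ z Y := hl₀.2 D (hsubρ.subset (by simp))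
            -- Z''
            have hZ'' : comp D Z' ∈ Cov := h.comp D hD Z' hZ'
            have hzZ'' : z (comp D Z') = z X := by
              rw [z_comp, hzZ']
              exact Finset.inter_eq_right.mpr hXD.1
            have hsep'' : sep X (comp D Z') = z D ∩ (sep X Z \ z Y) := by
              rw [← hsep']
              ext i
              rw [Finset.mem_inter, mem_sep, mem_sep, mem_z]
              by_cases hDi : D i = 0
              · simp [comp, hDi]
              · have := (hDX i).resolve_left hDi
                simp [comp, hDi, this]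
            have hne'' : X ≠ comp D Z' := by
              obtain ⟨j, hj1, hj2⟩ := Finset.exists_of_ssubset
                (Finset.ssubset_iff_subset_ne.mpr ⟨hYD, fun h0 => hDne h0.symm⟩)
              have hjX : j ∉ z X := fun h0 => hj2 (hzXY.1 h0)
              have hjs : j ∈ sep X Z := hDs (Finset.mem_sdiff.mpr ⟨hj1, hjX⟩)
              have : j ∈ sep X (comp D Z') := by
                rw [hsep'']
                exact Finset.mem_inter.mpr ⟨hj1, Finset.mem_sdiff.mpr ⟨hjs, hj2⟩⟩
              intro h0
              exact (mem_sep.mp this) (congrFun h0 j)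
            have hcard'' : (sep X (comp D Z')).card ≤ n := by
              rw [hsep'']
              exact (Finset.card_le_card Finset.inter_subset_right).trans hcard'
            have hIH := ih X hX _ hZ'' hzZ''.symm hne'' hcard''
            rw [hsep''] at hIH
            have hpc : ∀ c ∈ Ch Cov X (z D ∩ (sep X Z \ z Y)), ∀ F ∈ c, p F = true := by
              intro c hc F hF
              exact (hp F).mpr (keyB F ((hc.1 F hF).2.2.2.trans Finset.inter_subset_right))
            have hDp : ¬ p D = true := by rw [hp]; exact not_not.mpr hYD
            have hdropρ : (D :: ρ').dropWhile p = D :: ρ' := by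
              rw [List.dropWhile_cons, if_neg hDp]
            refine (acy_append (t := D :: ρ') ?_ hIH).congr ?_
            · intro c hc t' hdel c' hc' heq
              have h1 := congrArg (List.dropWhile p) heq
              rw [dropWhile_append_all p c t' (hpc c hc),
                dropWhile_append_all p c' _ (hpc c' hc'), hdropρ] at h1
              have h2 := congrArg List.length h1
              have h3 := (List.dropWhile_sublist p (l := t')).length_le
              have h4 := hdel.length
              omega
            · ext l
              constructor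
              · rintro ⟨c, hc, rfl⟩
                refine ⟨⟨⟨?_, ?_⟩, ?_⟩, ?_⟩
                · intro F hF
                  rcases List.mem_append.mp hF with hF | hF
                  · obtain ⟨a1, a2, a3, a4⟩ := hc.1 F hF
                    exact ⟨a1, a2, a3,
                      a4.trans (Finset.inter_subset_right.trans Finset.sdiff_subset)⟩
                  · exact hρCh.1 F hF
                · rw [List.pairwise_append]
                  refine ⟨hc.2, hρCh.2, ?_⟩
                  intro F hF G hG
                  have hFs := (hc.1 F hF).2.2.2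
                  have hFD : z F ⊆ z D := by
                    intro k hk
                    by_cases hkX : k ∈ z X
                    · exact hXD.1 hkX
                    · exact (Finset.mem_inter.mp (hFs (Finset.mem_sdiff.mpr ⟨hk, hkX⟩))).1
                  have hDG : z D ⊆ z G := by
                    rcases List.mem_cons.mp hG with rfl | hG
                    · exact Finset.Subset.refl _
                    · exact ((List.pairwise_cons.mp hρCh.2).1 G hG).1
                  have hnF : ¬ z Y ⊆ z F := (hp F).mp (hpc c hc F hF)
                  refine Finset.ssubset_iff_subset_ne.mpr ⟨hFD.trans hDG, ?_⟩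
                  intro h0
                  exact hnF (h0 ▸ hYD.trans hDG)
                · intro F hF
                  rcases List.mem_append.mp hF with hF | hF
                  · intro h0
                    exact (hp F).mp (hpc c hc F hF) (h0 ▸ Finset.Subset.refl _)
                  · exact hl₀.2 F (hsubρ.subset hF)
                · show (c ++ D :: ρ').dropWhile p = D :: ρ'
                  rw [dropWhile_append_all p c _ (hpc c hc), hdropρ]
              · rintro ⟨⟨hl, _⟩, hl2⟩
                obtain ⟨c, hc, hcp⟩ := exists_take p l
                have hl2' : l.dropWhile p = D :: ρ' := hl2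
                rw [hl2'] at hc
                refine ⟨c, ?_, hc⟩
                have hcl : c.Sublist l := by
                  rw [hc]; exact List.sublist_append_left c (D :: ρ')
                have hcCh := Ch_sublist hl hcl
                refine ⟨?_, hcCh.2⟩
                intro F hF
                obtain ⟨a1, a2, a3, a4⟩ := hcCh.1 F hF
                refine ⟨a1, a2, a3, ?_⟩
                intro i hi
                refine Finset.mem_inter.mpr ⟨?_, keyA F a1 a3 a4 ((hp F).mp (hcp F hF)) hi⟩
                have hpw := hl.2
                rw [hc, List.pairwise_append] at hpw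
                exact (hpw.2.2 F hF D (by simp)).1 (Finset.mem_sdiff.mp hi).1
      · -- S2
        by_cases hex : ∃ F, F ∈ Cov ∧ le F X ∧ z F = z Y
        swap
        · refine acy_empty.congr ?_
          ext l
          constructor
          · intro h0; exact absurd h0 (by simp)
          · rintro ⟨hl, F, hF, hFz⟩
            exact absurd ⟨F, (hl.1 F hF).1, (hl.1 F hF).2.1, hFz⟩ hex
        obtain ⟨F₁, hF₁, hF₁X, hF₁z⟩ := hex
        have hsepF : sep F₁ Y = sep X Z \ z Y := by
          ext i
          rw [Finset.mem_sdiff, mem_sep, mem_sep]
          by_cases hi : i ∈ z Y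
          · have h1 : F₁ i = 0 := mem_z.mp (hF₁z ▸ hi)
            have h2 := mem_z.mp hi
            simp [h1, h2, hi]
          · have h1 : F₁ i ≠ 0 := fun h0 => hi (hF₁z ▸ mem_z.mpr h0)
            have h2 : Y i ≠ 0 := fun h0 => hi (mem_z.mpr h0)
            rw [(hF₁X i).resolve_left h1, (hYZ i).resolve_left h2]
            simp [hi]
        have hneF : F₁ ≠ Y := by
          obtain ⟨j, hj⟩ := hsepne
          rw [← hsepF] at hj
          intro h0
          exact (mem_sep.mp hj) (congrFun h0 j)
        have hIH := ih F₁ hF₁ Y hY hF₁z hneF (by rw [hsepF]; exact hcard')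
        refine (acy_cons (a := F₁) ?_ hIH).congr ?_
        · rintro c hc c' _ rfl
          have := (hc.1 F₁ (by simp)).2.2.1
          exact this.2 (Finset.Subset.refl _)
        · ext l
          constructor
          · rintro ⟨l', hl', rfl⟩
            rw [hsepF] at hl'
            refine ⟨⟨?_, ?_⟩, F₁, by simp, hF₁z⟩
            · intro F hF
              rcases List.mem_cons.mp hF with rfl | hF
              · exact ⟨hF₁, hF₁X, hF₁z ▸ hzXY, by rw [hF₁z, hz]; exact hYsep⟩
              · obtain ⟨a1, a2, a3, a4⟩ := hl'.1 F hF
                refine ⟨a1, le_trans' a2 hF₁X, ?_, ?_⟩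
                · exact (hF₁z ▸ hzXY).trans a3
                · intro i hi
                  by_cases hi1 : i ∈ z F₁
                  · apply hYsep
                    rw [← hF₁z, ← hz]
                    exact Finset.mem_sdiff.mpr ⟨hi1, (Finset.mem_sdiff.mp hi).2⟩
                  · exact (Finset.mem_sdiff.mp
                      (a4 (Finset.mem_sdiff.mpr ⟨(Finset.mem_sdiff.mp hi).1, hi1⟩))).1
            · rw [List.pairwise_cons]
              exact ⟨fun G hG => (hl'.1 G hG).2.2.1, hl'.2⟩
          · rintro ⟨hl, F, hF, hFz⟩
            have hFF : F = F₁ :=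
              eq_of_le_z (hl.1 F hF).2.1 hF₁X (hFz.trans hF₁z.symm)
            subst hFF
            obtain ⟨s, t, rfl⟩ := List.append_of_mem hF
            have hs : s = [] := by
              rw [List.eq_nil_iff_forall_not_mem]
              intro a ha
              have hpw := hl.2
              rw [List.pairwise_append] at hpw
              have h1 : z a ⊂ z F := hpw.2.2 a ha F (by simp)
              obtain ⟨a1, a2, a3, a4⟩ := hl.1 a (by simp [ha])
              obtain ⟨j, hj1, hj2⟩ := Finset.exists_of_ssubset a3
              have h2 : z Y ⊆ z a := by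
                refine hcls a a1 (hz ▸ a3.1) ⟨j, Finset.mem_sdiff.mpr ⟨?_, hz ▸ hj2⟩,
                  mem_z.mp hj1⟩
                rw [← hFz]; exact h1.1 hj1
              rw [hFz] at h1
              exact h1.2 h2
            subst hs
            refine ⟨t, ?_, rfl⟩
            rw [hsepF]
            rw [List.nil_append] at hl
            refine ⟨?_, (List.pairwise_cons.mp hl.2).2⟩
            intro G hG
            obtain ⟨a1, a2, a3, a4⟩ := hl.1 G (by simp [hG])
            have h1 : z F ⊂ z G := (List.pairwise_cons.mp hl.2).1 G hG
            refine ⟨a1, le_of_z_subset hF₁X a2 h1.1, h1, ?_⟩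
            intro i hi
            refine Finset.mem_sdiff.mpr ⟨a4 (Finset.mem_sdiff.mpr
              ⟨(Finset.mem_sdiff.mp hi).1, fun h0 => (Finset.mem_sdiff.mp hi).2
                (by rw [hFz]; exact hzXY.1 h0)⟩), ?_⟩
            intro h0
            exact (Finset.mem_sdiff.mp hi).2 (by rw [hFz]; exact h0)

theorem t_G1 : S_G1 := by
  intro ι _ _ Cov h X hX Z hZ hz hne
  exact acy_Ch h _ X hX Z hZ hz hne le_rfl

end H61Mag
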