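import Pool.Agent.E8helper61.Mag.OMDefs

/-!
Magnitude homology of a graph, and of the tope graph of an arrangement.
-/

namespace H61Mag

section Magnitude

variable {V : Type*} (G : SimpleGraph V)

/-- total length `∑ d(x_{i-1}, x_i)` of a tuple `(x_0, ..., x_k)` -/
noncomputable def len : List V → ℕ
  | [] => 0
  | [_] => 0
  | (a :: b :: l) => G.dist a b + len (b :: l)

open Classical in
/-- `∂_i (x_0, ..., x_k) = (x_0, ..., \hat{x_i}, ..., x_k)` if `0 < i < k` and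
`d(x_{i-1}, x_{i+1}) = d(x_{i-1}, x_i) + d(x_i, x_{i+1})`, and `0` otherwise -/
noncomputable def face (i : ℕ) (x : List V) : List V →₀ ℤ :=
  if 0 < i ∧ ∃ a b c, x[i-1]? = some a ∧ x[i]? = some b ∧ x[i+1]? = some c ∧
      G.dist a c = G.dist a b + G.dist b c
  then Finsupp.single (x.eraseIdx i) 1 else 0

/-- `∂ = ∑_{0<i<k} (-1)^i ∂_i`, extended linearly to the free module on all tuples -/
noncomputable def bd : (List V →₀ ℤ) →ₗ[ℤ] (List V →₀ ℤ) :=
  Finsupp.linearCombination ℤ (fun x => ∑ i ∈ Finset.range x.length, (-1 : ℤ) ^ i • face G i x)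

/-- `MC_{k,ℓ}(G)`: the free abelian group on the tuples `(x_0, ..., x_k)` (lists of length `k+1`)
with `x_{i-1} ≠ x_i` and total length `ℓ` -/
noncomputable def chains (k ℓ : ℕ) : Submodule ℤ (List V →₀ ℤ) :=
  Finsupp.supported ℤ ℤ {x : List V | x.length = k + 1 ∧ x.IsChain (· ≠ ·) ∧ len G x = ℓ}

/-- the kernel of `∂` on `MC_{k,ℓ}` -/
noncomputable def cycles (k ℓ : ℕ) : Submodule ℤ (List V →₀ ℤ) := chains G k ℓ ⊓ LinearMap.ker (bd G)

/-- the image of `∂ : MC_{k+1,ℓ} → MC_{k,ℓ}` -/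
noncomputable def boundaries (k ℓ : ℕ) : Submodule ℤ (List V →₀ ℤ) :=
  (chains G (k + 1) ℓ).map (bd G)

/-- magnitude homology `MH_{k,ℓ}(G)` -/
abbrev MH (k ℓ : ℕ) : Type _ :=
  (cycles G k ℓ) ⧸ ((boundaries G k ℓ).comap (cycles G k ℓ).subtype)

end Magnitude

/-- the final statement: the magnitude homology of every tope graph is torsion-free -/
def S_FINAL : Prop := ∀ (d : ℕ) (A : Arrangement d) (k ℓ : ℕ) (n : ℤ)
  (h : MH A.topeGraph k ℓ), n ≠ 0 → n • h = 0 → h = 0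

/-- (TR) translation -/
def S_TR : Prop := S_C1 → S_C2 → S_MAIN → S_FINAL

end H61Mag
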