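import Pool.Agent.E8helper61.Mag.Core

/-!
The deletion operator on the free module on lists.
-/

namespace H61Mag

open Finsupp

variable {α : Type*}

/-- put `a` in front -/
noncomputable def consL (a : α) : (List α →₀ ℤ) →ₗ[ℤ] (List α →₀ ℤ) :=
  Finsupp.lmapDomain ℤ ℤ (List.cons a)

@[simp] theorem consL_single (a : α) (l : List α) (n : ℤ) :
    consL a (Finsupp.single l n) = Finsupp.single (a :: l) n := by
  simp [consL]

/-- the boundary of a list: the alternating sum of all one-step deletions,
`∂ (a :: l) = l - a :: ∂ l` -/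
noncomputable def bdry : List α → (List α →₀ ℤ)
  | [] => 0
  | (a :: l) => Finsupp.single l 1 - consL a (bdry l)

/-- the deletion operator -/
noncomputable def Dl : (List α →₀ ℤ) →ₗ[ℤ] (List α →₀ ℤ) := Finsupp.linearCombination ℤ bdry

@[simp] theorem Dl_single (l : List α) (n : ℤ) : Dl (Finsupp.single l n) = n • bdry l := by
  simp [Dl]

theorem Dl_consL (a : α) (c : List α →₀ ℤ) : Dl (consL a c) = c - consL a (Dl c) := by
  induction c using Finsupp.induction_linear with
  | zero => simp
  | add f g hf hg => rw [map_add, map_add, hf, hg, map_add, map_add]; abel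
  | single l n =>
    rw [consL_single, Dl_single, Dl_single, bdry, smul_sub, map_smul]
    simp

theorem Dl_Dl (c : List α →₀ ℤ) : Dl (Dl c) = 0 := by
  induction c using Finsupp.induction_linear with
  | zero => simp
  | add f g hf hg => rw [map_add, map_add, hf, hg, add_zero]
  | single l n =>
    rw [Dl_single, map_smul]
    have : Dl (bdry l) = 0 := by
      induction l with
      | nil => simp [bdry]
      | cons a l ih =>
        rw [bdry, map_sub, Dl_single, one_smul, Dl_consL, ih]
        simp
    rw [this, smul_zero]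

/-- `Del l l'`: `l'` is obtained from `l` by deleting one entry -/
def Del (l l' : List α) : Prop := ∃ s x t, l = s ++ x :: t ∧ l' = s ++ t

theorem Del.length {l l' : List α} (h : Del l l') : l'.length + 1 = l.length := by
  obtain ⟨s, x, t, rfl, rfl⟩ := h
  simp; omega

theorem Del.sublist {l l' : List α} (h : Del l l') : l'.Sublist l := by
  obtain ⟨s, x, t, rfl, rfl⟩ := h
  exact List.Sublist.append_left (List.sublist_cons_self x t) s

theorem Del_cons_iff {a : α} {l l' : List α} :
    Del (a :: l) l' ↔ l' = l ∨ ∃ l'', Del l l'' ∧ l' = a :: l'' := by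
  constructor
  · rintro ⟨s, x, t, h1, rfl⟩
    cases s with
    | nil =>
      simp only [List.nil_append, List.cons.injEq] at h1
      left; simp [h1.2]
    | cons b s =>
      simp only [List.cons_append, List.cons.injEq] at h1
      right
      exact ⟨s ++ t, ⟨s, x, t, h1.2, rfl⟩, by simp [h1.1]⟩
  · rintro (rfl | ⟨l'', ⟨s, x, t, rfl, rfl⟩, rfl⟩)
    · exact ⟨[], a, l', rfl, rfl⟩
    · exact ⟨a :: s, x, t, rfl, rfl⟩

theorem not_Del_nil {l' : List α} : ¬ Del [] l' := by
  rintro ⟨s, x, t, h1, -⟩
  simp at h1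

theorem consL_apply_ne {a : α} {c : List α →₀ ℤ} {l' : List α} (h : consL a c l' ≠ 0) :
    ∃ l'', c l'' ≠ 0 ∧ l' = a :: l'' := by
  classical
  have h1 : l' ∈ (consL a c).support := Finsupp.mem_support_iff.mpr h
  have h2 := Finsupp.mapDomain_support (f := List.cons a) (s := c)
  have h3 := h2 (by simpa [consL] using h1)
  rw [Finset.mem_image] at h3
  obtain ⟨l'', h4, h5⟩ := h3
  exact ⟨l'', Finsupp.mem_support_iff.mp h4, h5.symm⟩

theorem consL_apply_cons (a : α) (c : List α →₀ ℤ) (l : List α) :
    consL a c (a :: l) = c l := by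
  have : Function.Injective (List.cons a) := fun x y h => by simpa using h
  simp only [consL, Finsupp.lmapDomain_apply]
  exact Finsupp.mapDomain_apply this c l

theorem consL_apply_nil (a : α) (c : List α →₀ ℤ) : consL a c [] = 0 := by
  by_contra h
  obtain ⟨l'', -, h2⟩ := consL_apply_ne h
  simp at h2

theorem consL_apply_cons_ne {a b : α} (hab : b ≠ a) (c : List α →₀ ℤ) (l : List α) :
    consL a c (b :: l) = 0 := by
  by_contra h
  obtain ⟨l'', -, h2⟩ := consL_apply_ne h
  simp only [List.cons.injEq] at h2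
  exact hab h2.1

theorem Del_of_bdry_ne {l l' : List α} (h : bdry l l' ≠ 0) : Del l l' := by
  classical
  induction l generalizing l' with
  | nil => exact absurd rfl h
  | cons a l ih =>
    rw [bdry, Finsupp.sub_apply, Finsupp.single_apply] at h
    by_cases h1 : l = l'
    · exact Del_cons_iff.mpr (Or.inl h1.symm)
    · rw [if_neg h1, zero_sub, neg_ne_zero] at h
      obtain ⟨l'', h2, h3⟩ := consL_apply_ne h
      exact Del_cons_iff.mpr (Or.inr ⟨l'', ih h2, h3⟩)

theorem Del_of_Dl_ne {l l' : List α} (h : Dl (Finsupp.single l 1) l' ≠ 0) : Del l l' := by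
  rw [Dl_single, one_smul] at h
  exact Del_of_bdry_ne h

theorem noMap_of {S₁ S₂ : Set (List α)} (h : ∀ l ∈ S₁, ∀ l' ∈ S₂, ¬ Del l l') :
    NoMap Dl S₁ S₂ := by
  intro l hl l' hl'
  by_contra hne
  exact h l hl l' hl' (Del_of_Dl_ne hne)

/-- a set of lists is convex if one-step intermediate lists belong to it -/
def Convex1 (S : Set (List α)) : Prop :=
  ∀ l ∈ S, ∀ l', Del l l' → ∀ l'' ∈ S, Del l' l'' → l' ∈ S

theorem Dl_apply_ne {c : List α →₀ ℤ} {j : List α} (h : Dl c j ≠ 0) :
    ∃ i, c i ≠ 0 ∧ Del i j := by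
  rw [D_apply_eq] at h
  obtain ⟨i, hi, hne⟩ := Finset.exists_ne_zero_of_sum_ne_zero h
  exact ⟨i, Finsupp.mem_support_iff.mp hi,
    Del_of_Dl_ne (fun h0 => hne (by show _ * _ = _; rw [h0, mul_zero]))⟩

theorem sq_of_convex {S : Set (List α)} (h : Convex1 S) : Sq Dl S := by
  classical
  intro c hc
  -- D (D c) = 0 = D (P_S D c) + D ((1 - P_S) D c)
  have h1 : Dl (P S (Dl c)) = - Dl (Dl c - P S (Dl c)) := by
    rw [map_sub, Dl_Dl, zero_sub, neg_neg]
  rw [h1, map_neg, neg_eq_zero]
  ext j
  rw [P_apply]
  split_ifs with hj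
  · by_contra hne
    obtain ⟨i, hi, hdel⟩ := Dl_apply_ne (show Dl (Dl c - P S (Dl c)) j ≠ 0 from hne)
    rw [Finsupp.sub_apply, P_apply] at hi
    by_cases hiS : i ∈ S
    · rw [if_pos hiS, sub_self] at hi; exact hi rfl
    · rw [if_neg hiS, sub_zero] at hi
      obtain ⟨k, hk, hdel2⟩ := Dl_apply_ne hi
      have hkS : k ∈ S := by
        by_contra hn; exact hk (hc k hn)
      exact hiS (h k hkS i hdel2 j hj hdel)
  · rfl

theorem split_of {S₁ S₂ : Set (List α)} (hd : Disjoint S₁ S₂)
    (hno : ∀ l ∈ S₁, ∀ l' ∈ S₂, ¬ Del l l') (hc : Convex1 (S₁ ∪ S₂)) : Split Dl S₁ S₂ :=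
  ⟨hd, noMap_of hno, sq_of_convex hc⟩

/-- append `t` at the end -/
noncomputable def appR (t : List α) : (List α →₀ ℤ) →ₗ[ℤ] (List α →₀ ℤ) :=
  Finsupp.lmapDomain ℤ ℤ (fun l => l ++ t)

theorem appR_inj (t : List α) : Function.Injective (fun l : List α => l ++ t) :=
  fun a b h => by simpa using h

theorem appR_apply (t : List α) (c : List α →₀ ℤ) (l : List α) : appR t c (l ++ t) = c l := by
  simp only [appR, Finsupp.lmapDomain_apply]
  exact Finsupp.mapDomain_apply (appR_inj t) c l

@[simp] theorem appR_single (t l : List α) (n : ℤ) :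
    appR t (Finsupp.single l n) = Finsupp.single (l ++ t) n := by
  simp [appR]

theorem appR_apply_ne {t : List α} {c : List α →₀ ℤ} {l' : List α} (h : appR t c l' ≠ 0) :
    ∃ l'', c l'' ≠ 0 ∧ l' = l'' ++ t := by
  classical
  have h1 : l' ∈ (appR t c).support := Finsupp.mem_support_iff.mpr h
  have h2 := Finsupp.mapDomain_support (f := fun l : List α => l ++ t) (s := c)
  have h3 := h2 (by simpa [appR] using h1)
  rw [Finset.mem_image] at h3
  obtain ⟨l'', h4, h5⟩ := h3
  exact ⟨l'', Finsupp.mem_support_iff.mp h4, h5.symm⟩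

/-- the part of the boundary of `l ++ t` coming from `l` -/
theorem bdry_append (l t : List α) :
    ∃ e : List α →₀ ℤ, bdry (l ++ t) = appR t (bdry l) + e ∧
      ∀ l', e l' ≠ 0 → ∃ t', Del t t' ∧ l' = l ++ t' := by
  induction l with
  | nil =>
    refine ⟨bdry t, by simp [bdry], ?_⟩
    intro l' h
    exact ⟨l', Del_of_bdry_ne h, rfl⟩
  | cons a l ih =>
    obtain ⟨e, he, he2⟩ := ih
    refine ⟨-consL a e, ?_, ?_⟩
    · rw [List.cons_append, bdry, he, bdry, map_sub, map_add, appR_single]
      have : consL a (appR t (bdry l)) = appR t (consL a (bdry l)) := by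
        generalize bdry l = c
        induction c using Finsupp.induction_linear with
        | zero => simp
        | add f g hf hg => simp only [map_add, hf, hg]
        | single l n => simp
      rw [this]
      abel
    · intro l' h
      rw [Finsupp.neg_apply, neg_ne_zero] at h
      obtain ⟨l'', h1, rfl⟩ := consL_apply_ne h
      obtain ⟨t', h2, rfl⟩ := he2 l'' h1
      exact ⟨t', h2, rfl⟩

/-- (L8) appending a fixed tail -/
theorem acy_append {C : Set (List α)} {t : List α}
    (h : ∀ c ∈ C, ∀ t', Del t t' → ∀ c' ∈ C, c ++ t' ≠ c' ++ t) (hC : Acy Dl C) :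
    Acy Dl {l | ∃ c ∈ C, l = c ++ t} := by
  classical
  set S : Set (List α) := {l | ∃ c ∈ C, l = c ++ t} with hS
  -- P_S D (appR t c) = appR t (P_C D c) for c in C
  have comm : ∀ c : List α →₀ ℤ, In C c → P S (Dl (appR t c)) = appR t (P C (Dl c)) := by
    intro c hc
    have h1 : ∀ c : List α →₀ ℤ, In C c → ∃ e : List α →₀ ℤ,
        Dl (appR t c) = appR t (Dl c) + e ∧ P S e = 0 := by
      intro c
      induction c using Finsupp.induction with
      | zero => intro _; exact ⟨0, by simp, by simp⟩
      | single_add l n c hl hn ih =>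
        intro hc
        have hcc : In C c := by
          intro i hi
          have := hc i hi
          rw [Finsupp.add_apply, Finsupp.single_apply] at this
          by_cases h2 : l = i
          · subst h2
            exact Finsupp.notMem_support_iff.mp hl
          · rwa [if_neg h2, zero_add] at this
        have hlC : l ∈ C := by
          by_contra hni
          have := hc l hni
          rw [Finsupp.add_apply, Finsupp.single_eq_same, Finsupp.notMem_support_iff.mp hl,
            add_zero] at this
          exact hn this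
        obtain ⟨e, he1, he2⟩ := ih hcc
        obtain ⟨e', he'1, he'2⟩ := bdry_append l t
        refine ⟨n • e' + e, ?_, ?_⟩
        · rw [map_add, map_add, he1, appR_single, Dl_single, he'1, map_add, map_add, Dl_single,
            map_smul, smul_add]
          abel
        · rw [map_add, he2, add_zero, map_smul]
          have : P S e' = 0 := by
            ext j
            rw [P_apply]
            split_ifs with hj
            · by_contra hne
              obtain ⟨t', ht', rfl⟩ := he'2 j hne
              obtain ⟨c', hc', hc'2⟩ := hj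
              exact h l hlC t' ht' c' hc' hc'2
            · rfl
          rw [this, smul_zero]
    obtain ⟨e, he1, he2⟩ := h1 c hc
    rw [he1, map_add, he2, add_zero]
    -- P S (appR t d) = appR t (P C d)
    ext j
    rw [P_apply]
    split_ifs with hj
    · obtain ⟨c', hc', rfl⟩ := hj
      rw [appR_apply, appR_apply, P_apply, if_pos hc']
    · by_contra hne
      have hne' : appR t (P C (Dl c)) j ≠ 0 := fun h0 => hne h0.symm
      obtain ⟨l'', h2, rfl⟩ := appR_apply_ne hne'
      rw [P_apply] at h2
      by_cases h3 : l'' ∈ C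
      · exact hj ⟨l'', h3, rfl⟩
      · rw [if_neg h3] at h2; exact h2 rfl
  intro c hc hz
  -- c = appR t c0
  have hc0 : ∃ c0, In C c0 ∧ appR t c0 = c := by
    refine ⟨Finsupp.comapDomain (fun l => l ++ t) c (appR_inj t).injOn, ?_, ?_⟩
    · intro i hi
      rw [Finsupp.comapDomain_apply]
      apply hc
      rintro ⟨c', hc', h2⟩
      have : i = c' := appR_inj t h2
      exact hi (this ▸ hc')
    · ext j
      by_cases hj : ∃ l, j = l ++ t
      · obtain ⟨l, rfl⟩ := hj
        rw [appR_apply, Finsupp.comapDomain_apply]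
      · have h1 : c j = 0 := hc j (fun ⟨c', _, h2⟩ => hj ⟨c', h2⟩)
        rw [h1]
        by_contra hne
        obtain ⟨l'', -, h2⟩ := appR_apply_ne hne
        exact hj ⟨l'', h2⟩
  obtain ⟨c0, hc0, rfl⟩ := hc0
  have hz0 : P C (Dl c0) = 0 := by
    have h1 := comm c0 hc0
    rw [hz] at h1
    ext j
    have h2 := congrArg (fun f => f (j ++ t)) h1
    simp only [Finsupp.coe_zero, Pi.zero_apply, appR_apply] at h2
    exact h2.symm
  obtain ⟨b, hb, hbc⟩ := hC c0 hc0 hz0
  refine ⟨appR t b, ?_, ?_⟩
  · intro j hj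
    by_contra hne
    obtain ⟨l'', h2, rfl⟩ := appR_apply_ne hne
    exact h2 (hb l'' (fun h3 => hj ⟨l'', h3, rfl⟩))
  · rw [comm b hb, hbc]

theorem cons_decomp {C : Set (List α)} {a : α} (c : List α →₀ ℤ)
    (hc : In {l | ∃ l' ∈ C, l = a :: l'} c) : ∃ c0, In C c0 ∧ consL a c0 = c := by
  have hinj : Function.Injective (List.cons a) := fun x y h => by simpa using h
  refine ⟨Finsupp.comapDomain (List.cons a) c hinj.injOn, ?_, ?_⟩
  · intro i hi
    rw [Finsupp.comapDomain_apply]
    apply hc
    rintro ⟨c', hc', h2⟩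
    have : i = c' := hinj h2
    exact hi (this ▸ hc')
  · ext j
    by_cases hj : ∃ l, j = a :: l
    · obtain ⟨l, rfl⟩ := hj
      rw [consL_apply_cons, Finsupp.comapDomain_apply]
    · have h1 : c j = 0 := hc j (fun ⟨c', _, h2⟩ => hj ⟨c', h2⟩)
      rw [h1]
      by_contra hne
      obtain ⟨l'', -, h2⟩ := consL_apply_ne hne
      exact hj ⟨l'', h2⟩

theorem cons_comm {C : Set (List α)} {a : α}
    (h : ∀ c ∈ C, ∀ c' ∈ C, c ≠ a :: c') (c : List α →₀ ℤ) (hc : In C c) :
    P {l | ∃ l' ∈ C, l = a :: l'} (Dl (consL a c)) = - consL a (P C (Dl c)) := by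
  classical
  rw [Dl_consL, map_sub]
  have h1 : P {l | ∃ l' ∈ C, l = a :: l'} c = 0 := by
    ext j
    rw [P_apply]
    split_ifs with hj
    · obtain ⟨l', hl', rfl⟩ := hj
      by_contra hne
      have : (a :: l') ∈ C := by
        by_contra hn; exact hne (hc _ hn)
      exact h _ this l' hl' rfl
    · rfl
  rw [h1, zero_sub]
  congr 1
  ext j
  rw [P_apply]
  split_ifs with hj
  · obtain ⟨c', hc', rfl⟩ := hj
    rw [consL_apply_cons, consL_apply_cons, P_apply, if_pos hc']
  · by_contra hne
    have hne' : consL a (P C (Dl c)) j ≠ 0 := fun h0 => hne h0.symm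
    obtain ⟨l'', h2, rfl⟩ := consL_apply_ne hne'
    rw [P_apply] at h2
    by_cases h3 : l'' ∈ C
    · exact hj ⟨l'', h3, rfl⟩
    · rw [if_neg h3] at h2; exact h2 rfl

theorem consL_injective (a : α) : Function.Injective (consL a) := by
  intro c c' h
  ext l
  have := congrArg (fun f => f (a :: l)) h
  simpa [consL_apply_cons] using this

theorem In_consL {C : Set (List α)} {a : α} {b : List α →₀ ℤ} (hb : In C b) :
    In {l | ∃ l' ∈ C, l = a :: l'} (consL a b) := by
  intro j hj
  by_contra hne
  obtain ⟨l'', h2, rfl⟩ := consL_apply_ne hne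
  exact h2 (hb l'' (fun h3 => hj ⟨l'', h3, rfl⟩))

/-- (L10) a fixed first entry -/
theorem acy_cons {C : Set (List α)} {a : α}
    (h : ∀ c ∈ C, ∀ c' ∈ C, c ≠ a :: c') (hC : Acy Dl C) :
    Acy Dl {l | ∃ l' ∈ C, l = a :: l'} := by
  intro c hc hz
  obtain ⟨c0, hc0, rfl⟩ := cons_decomp c hc
  rw [cons_comm h c0 hc0, neg_eq_zero] at hz
  have hz0 : P C (Dl c0) = 0 := consL_injective a (by rw [hz, map_zero])
  obtain ⟨b, hb, hbc⟩ := hC c0 hc0 hz0
  refine ⟨-consL a b, (In_consL hb).neg, ?_⟩
  rw [map_neg, map_neg, cons_comm h b hb, neg_neg, hbc]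

theorem tf_cons {C : Set (List α)} {a : α}
    (h : ∀ c ∈ C, ∀ c' ∈ C, c ≠ a :: c') (hC : Tf Dl C) :
    Tf Dl {l | ∃ l' ∈ C, l = a :: l'} := by
  intro c hc hz n hn b hb hbc
  obtain ⟨c0, hc0, rfl⟩ := cons_decomp c hc
  obtain ⟨b0, hb0, rfl⟩ := cons_decomp b hb
  rw [cons_comm h c0 hc0, neg_eq_zero] at hz
  have hz0 : P C (Dl c0) = 0 := consL_injective a (by rw [hz, map_zero])
  rw [cons_comm h b0 hb0] at hbc
  have hbc0 : P C (Dl (-b0)) = n • c0 := by
    apply consL_injective a
    rw [map_neg, map_neg, map_neg, hbc, map_smul]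
  obtain ⟨b', hb', hb'c⟩ := hC c0 hc0 hz0 n hn (-b0) hb0.neg hbc0
  refine ⟨-consL a b', (In_consL hb').neg, ?_⟩
  rw [map_neg, map_neg, cons_comm h b' hb', neg_neg, hb'c]

/-- coefficient of a deletion which is unique -/
theorem bdry_append_cons_coeff (s t : List α) (g : α) (hs : s.getLast? ≠ some g)
    (ht : t.head? ≠ some g) : bdry (s ++ g :: t) (s ++ t) = (-1) ^ s.length := by
  classical
  induction s with
  | nil =>
    rw [List.nil_append, List.nil_append, bdry, Finsupp.sub_apply, Finsupp.single_eq_same]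
    have : consL g (bdry t) t = 0 := by
      by_contra hne
      obtain ⟨l'', -, h2⟩ := consL_apply_ne hne
      rw [h2] at ht
      simp at ht
    rw [this]; simp
  | cons a s ih =>
    rw [List.cons_append, List.cons_append, bdry, Finsupp.sub_apply, consL_apply_cons]
    have h1 : (Finsupp.single (s ++ g :: t) (1:ℤ)) (a :: (s ++ t)) = 0 := by
      rw [Finsupp.single_apply, if_neg]
      intro heq
      apply hs
      -- s ++ g :: t = a :: s ++ t : the last entry of a :: s is g
      have h2 : (s ++ [g]) ++ t = (a :: s) ++ t := by simpa using heq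
      have h3 : s ++ [g] = a :: s := List.append_cancel_right h2
      rw [← h3]; simp
    rw [h1, ih, List.length_cons, pow_succ]
    · ring
    · intro h2
      apply hs
      cases s with
      | nil => simp at h2
      | cons b s => simpa using h2

/-- (L7) a block of two lists differing by one insertion -/
theorem acy_pair {S : Set (List α)} (s t : List α) (g : α) (hs : s.getLast? ≠ some g)
    (ht : t.head? ≠ some g) (h1 : ∀ l ∈ S, l = s ++ t ∨ l = s ++ g :: t)
    (h2 : s ++ t ∈ S ↔ s ++ g :: t ∈ S) : Acy Dl S := by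
  classical
  by_cases hmem : s ++ t ∈ S
  · have hmem' := h2.mp hmem
    have hne : s ++ t ≠ s ++ g :: t := by
      intro h
      have := congrArg List.length h
      simp at this
    intro c hc hz
    have hcoef : Dl c (s ++ t) = c (s ++ g :: t) * (-1) ^ s.length := by
      rw [D_apply_eq]
      have hsub : c.support ⊆ {s ++ t, s ++ g :: t} := by
        intro i hi
        have : i ∈ S := by
          by_contra hn; exact (Finsupp.mem_support_iff.mp hi) (hc i hn)
        rcases h1 i this with h | h <;> simp [h]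
      rw [Finsupp.sum_of_support_subset _ hsub _ (by simp), Finset.sum_pair hne]
      have e1 : Dl (Finsupp.single (s ++ t) 1) (s ++ t) = 0 := by
        by_contra hne
        have := (Del_of_Dl_ne hne).length
        omega
      rw [e1, mul_zero, zero_add, Dl_single, one_smul, bdry_append_cons_coeff s t g hs ht]
    have hz1 : c (s ++ g :: t) = 0 := by
      have h3 := congrArg (fun f => f (s ++ t)) hz
      simp only [P_apply, if_pos hmem, hcoef, Finsupp.coe_zero, Pi.zero_apply] at h3
      rcases mul_eq_zero.mp h3 with h | h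
      · exact h
      · exact absurd h (pow_ne_zero _ (by norm_num))
    refine ⟨Finsupp.single (s ++ g :: t) (c (s ++ t) * (-1) ^ s.length),
      In_single hmem' _, ?_⟩
    ext j
    rw [P_apply]
    split_ifs with hj
    · rcases h1 j hj with rfl | rfl
      · rw [Dl_single, Finsupp.smul_apply, bdry_append_cons_coeff s t g hs ht, smul_eq_mul,
          mul_assoc, ← mul_pow]
        norm_num
      · rw [hz1]
        by_contra hne
        have h4 : Dl (Finsupp.single (s ++ g :: t) (c (s ++ t) * (-1) ^ s.length))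
          (s ++ g :: t) ≠ 0 := hne
        rw [Dl_single, Finsupp.smul_apply] at h4
        have h5 : bdry (s ++ g :: t) (s ++ g :: t) ≠ 0 := by
          intro h0; rw [h0] at h4; simp at h4
        have := (Del_of_bdry_ne h5).length
        omega
    · exact (hc j hj).symm
  · refine acy_empty.congr ?_
    ext l
    constructor
    · intro h; exact absurd h (by simp)
    · intro h
      rcases h1 l h with rfl | rfl
      · exact absurd h hmem
      · exact absurd (h2.mpr h) hmem

end H61Mag
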