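import Pool.Agent.E8helper61.Mag.G1
import Pool.Agent.E8helper61.Mag.Gate

/-!
The main combinatorial theorem: the complexes `W x y m` have torsion-free homology.
-/

set_option autoImplicit false

namespace H61Mag

section Prefix

variable {α : Type*}

theorem takeWhile_append_all (p : α → Bool) (c t : List α) (h : ∀ a ∈ c, p a = true)
    (ht : t.dropWhile p = t) : (c ++ t).takeWhile p = c := by
  induction c with
  | nil =>
    rw [List.nil_append]
    cases t with
    | nil => rfl
    | cons b t =>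
      rw [List.takeWhile_cons]
      by_cases hb : p b = true
      · exfalso
        rw [List.dropWhile_cons, if_pos hb] at ht
        have := (List.dropWhile_sublist p (l := t)).length_le
        rw [ht] at this
        simp at this
      · rw [if_neg hb]
  | cons a c ih =>
    rw [List.cons_append, List.takeWhile_cons, if_pos (h a (by simp)),
      ih (fun b hb => h b (by simp [hb]))]

/-- fixed prefix -/
theorem acy_prefix (p : α → Bool) {C : Set (List α)} (hC : Acy Dl C)
    (hCp : ∀ τ ∈ C, τ.dropWhile p = τ) (σ : List α) (hσ : ∀ a ∈ σ, p a = true) :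
    Acy Dl {l | ∃ τ ∈ C, l = σ ++ τ} := by
  induction σ with
  | nil => refine hC.congr ?_; ext l; simp
  | cons a σ ih =>
    have ih' := ih (fun b hb => hσ b (by simp [hb]))
    refine (acy_cons (a := a) ?_ ih').congr ?_
    · rintro c ⟨τ, hτ, rfl⟩ c' ⟨τ', hτ', rfl⟩ heq
      have h1 := congrArg (List.takeWhile p) heq
      have h2 : a :: (σ ++ τ') = (a :: σ) ++ τ' := rfl
      rw [h2, takeWhile_append_all p σ τ (fun b hb => hσ b (by simp [hb])) (hCp τ hτ),
        takeWhile_append_all p (a :: σ) τ' hσ (hCp τ' hτ')] at h1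
      have := congrArg List.length h1
      simp at this
    · ext l
      constructor
      · rintro ⟨l', ⟨τ, hτ, rfl⟩, rfl⟩; exact ⟨τ, hτ, rfl⟩
      · rintro ⟨τ, hτ, rfl⟩; exact ⟨σ ++ τ, ⟨τ, hτ, rfl⟩, rfl⟩

theorem tf_of_noDel {S : Set (List α)} (h : ∀ l ∈ S, ∀ l' ∈ S, ¬ Del l l') : Tf Dl S := by
  intro c hc _ n hn b hb hbc
  have h0 : P S (Dl b) = 0 := (noMap_of h).P_eq_zero Dl hb
  rw [h0] at hbc
  have : c = 0 := by
    ext i
    have := congrArg (fun f => f i) hbc
    simp only [Finsupp.coe_zero, Pi.zero_apply, Finsupp.smul_apply, smul_eq_mul] at this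
    rcases mul_eq_zero.mp this.symm with h1 | h1
    · exact absurd h1 hn
    · exact h1
  exact ⟨0, In_zero _, by rw [this, map_zero, map_zero]⟩

theorem getLast?_append_ne {s t : List α} (h : t ≠ []) : (s ++ t).getLast? = t.getLast? := by
  rw [List.getLast?_append]
  cases h1 : t.getLast? with
  | none => exact absurd (List.getLast?_eq_none_iff.mp h1) h
  | some a => rfl

end Prefix

variable {ι : Type*} [Fintype ι] [DecidableEq ι]

section Walks

variable {Cov : Set (Sg ι)} {x y : Sg ι} {m : ι → ℕ}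

/-- faces (with a zero) -/
def isF (F : Sg ι) : Bool := decide (z F ≠ ∅)

theorem isF_iff {F : Sg ι} : isF F = true ↔ z F ≠ ∅ := by simp [isF]

theorem W_del {l l' : List (Sg ι)} (hl : l ∈ W Cov x y m) (h : Del l l')
    (hc : cross (x :: l') = m) : l' ∈ W Cov x y m := by
  obtain ⟨h1, h2, h3, h4⟩ := hl
  obtain ⟨g1, g2, -⟩ := del_eq h x h2 (hc.trans h4.symm)
  exact ⟨fun e he => h1 e (h.sublist.subset he), g1, g2.trans h3, hc⟩

theorem W_convex : Convex1 (W Cov x y m) := by
  intro l hl l' h1 l'' hl'' h2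
  refine W_del hl h1 ?_
  funext i
  have e1 := cross_del h1 x i
  have e2 := cross_del h2 x i
  have e3 := congrFun hl.2.2.2 i
  have e4 := congrFun hl''.2.2.2 i
  omega

theorem W_ne_nil {τ : List (Sg ι)} (h : τ ∈ W Cov x y m) : ∃ a t, τ = a :: t := by
  cases τ with
  | nil => exact absurd h.2.2.1 (by simp)
  | cons a t => exact ⟨a, t, rfl⟩

theorem W_dropWhile {τ : List (Sg ι)} (h : τ ∈ W Cov x y m) : τ.dropWhile isF = τ := by
  obtain ⟨a, t, rfl⟩ := W_ne_nil h
  rw [List.dropWhile_cons, if_neg]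
  rw [isF_iff]
  have := (h.1 a (by simp)).2
  simp [this]

theorem head_mono {τ τ' : List (Sg ι)} (h : τ ∈ W Cov x y m) (h' : τ' ∈ W Cov x y m)
    (hd : Del τ τ') {a a' : Sg ι} (ha : τ.head? = some a) (ha' : τ'.head? = some a') :
    sep x a ⊆ sep x a' := by
  obtain ⟨_, _, h3⟩ := del_eq hd x h.2.1 (h'.2.2.2.trans h.2.2.2.symm)
  obtain ⟨b', hb', hs⟩ := h3 a ha
  rw [ha'] at hb'
  rw [Option.some.inj hb']
  exact hs

theorem sep_subset_supp {τ : List (Sg ι)} (h : τ ∈ W Cov x y m) {a : Sg ι}
    (ha : τ.head? = some a) : sep x a ⊆ supp m := by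
  obtain ⟨b, t, rfl⟩ := W_ne_nil h
  simp only [List.head?_cons, Option.some.injEq] at ha
  subst ha
  intro i hi
  rw [supp, Finset.mem_filter]
  refine ⟨Finset.mem_univ _, ?_⟩
  rw [← h.2.2.2, cross_cons_cons, if_pos (mem_sep.mp hi)]
  omega

/-- the augmented complex -/
def Aug (Cov : Set (Sg ι)) (x y : Sg ι) (m : ι → ℕ) : Set (List (Sg ι)) :=
  {l | ∃ σ τ a, l = σ ++ τ ∧ τ ∈ W Cov x y m ∧ τ.head? = some a ∧ σ ∈ Ch Cov x (sep x a)}

/-- the part with at least one face -/
def Pos (Cov : Set (Sg ι)) (x y : Sg ι) (m : ι → ℕ) : Set (List (Sg ι)) :=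
  {l | ∃ σ τ a, l = σ ++ τ ∧ τ ∈ W Cov x y m ∧ τ.head? = some a ∧ σ ∈ Ch Cov x (sep x a) ∧
    σ ≠ []}

theorem Ch_isF {X : Sg ι} {S : Finset ι} {σ : List (Sg ι)} (h : σ ∈ Ch Cov X S) :
    ∀ F ∈ σ, isF F = true := by
  intro F hF
  rw [isF_iff]
  intro h0
  have := (h.1 F hF).2.2.1
  rw [h0] at this
  exact (Finset.not_ssubset_empty _) this

theorem Ch_mono {X : Sg ι} {S S' : Finset ι} (hS : S ⊆ S') {σ : List (Sg ι)}
    (h : σ ∈ Ch Cov X S) : σ ∈ Ch Cov X S' :=
  ⟨fun F hF => ⟨(h.1 F hF).1, (h.1 F hF).2.1, (h.1 F hF).2.2.1, (h.1 F hF).2.2.2.trans hS⟩, h.2⟩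

theorem Del_append {α : Type*} {s t l' : List α} (h : Del (s ++ t) l') :
    (∃ s', Del s s' ∧ l' = s' ++ t) ∨ (∃ t', Del t t' ∧ l' = s ++ t') := by
  induction s generalizing l' with
  | nil => exact Or.inr ⟨l', h, rfl⟩
  | cons a s ih =>
    rw [List.cons_append] at h
    rcases Del_cons_iff.mp h with rfl | ⟨l'', h1, rfl⟩
    · exact Or.inl ⟨s, Del_cons_iff.mpr (Or.inl rfl), rfl⟩
    · rcases ih h1 with ⟨s', h2, rfl⟩ | ⟨t', h2, rfl⟩
      · exact Or.inl ⟨a :: s', Del_cons_iff.mpr (Or.inr ⟨s', h2, rfl⟩), rfl⟩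
      · exact Or.inr ⟨t', h2, rfl⟩

/-- uniqueness of the decomposition into faces and topes -/
theorem decomp_unique {σ σ' τ τ' : List (Sg ι)} (hσ : ∀ F ∈ σ, isF F = true)
    (hσ' : ∀ F ∈ σ', isF F = true) (hτ : τ.dropWhile isF = τ) (hτ' : τ'.dropWhile isF = τ')
    (h : σ ++ τ = σ' ++ τ') : σ = σ' ∧ τ = τ' := by
  have h1 := congrArg (List.takeWhile isF) h
  rw [takeWhile_append_all isF σ τ hσ hτ, takeWhile_append_all isF σ' τ' hσ' hτ'] at h1
  have h2 := congrArg (List.dropWhile isF) h
  rw [dropWhile_append_all isF σ τ hσ, dropWhile_append_all isF σ' τ' hσ', hτ, hτ'] at h2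
  exact ⟨h1, h2⟩

theorem tope_dropWhile {τ : List (Sg ι)} (h : ∀ a ∈ τ, a ∈ Tp Cov) : τ.dropWhile isF = τ := by
  cases τ with
  | nil => rfl
  | cons a t =>
    rw [List.dropWhile_cons, if_neg]
    rw [isF_iff]
    have := (h a (by simp)).2
    simp [this]

theorem Aug_convex : Convex1 (Aug Cov x y m) := by
  rintro l ⟨σ, τ, a, rfl, hτ, ha, hσ⟩ l' hd l'' ⟨σ'', τ'', a'', rfl, hτ'', ha'', hσ''⟩ hd'
  rcases Del_append hd with ⟨σ', h1, rfl⟩ | ⟨τ', h1, rfl⟩
  · exact ⟨σ', τ, a, rfl, hτ, ha, Ch_sublist hσ h1.sublist⟩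
  · -- τ' is in W
    have htop : ∀ b ∈ τ', b ∈ Tp Cov := fun b hb => hτ.1 b (h1.sublist.subset hb)
    have hτ' : τ' ∈ W Cov x y m := by
      rcases Del_append hd' with ⟨s', h2, h3⟩ | ⟨t', h2, h3⟩
      · have := decomp_unique (Ch_isF hσ'') (fun F hF => Ch_isF hσ F (h2.sublist.subset hF))
          (W_dropWhile hτ'') (tope_dropWhile htop) h3
        rw [← this.2]; exact hτ''
      · have := decomp_unique (Ch_isF hσ'') (Ch_isF hσ) (W_dropWhile hτ'')
          (tope_dropWhile (fun b hb => htop b (h2.sublist.subset hb))) h3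
        exact W_convex τ hτ τ' h1 τ'' hτ'' (this.2 ▸ h2)
    obtain ⟨a', t, ht⟩ := W_ne_nil hτ'
    have ha' : τ'.head? = some a' := by rw [ht]; rfl
    exact ⟨σ, τ', a', rfl, hτ', ha', Ch_mono (head_mono hτ hτ' h1 ha ha') hσ⟩

theorem Aug_eq (hx : x ∈ Tp Cov) : Aug Cov x y m = W Cov x y m ∪ Pos Cov x y m := by
  ext l
  constructor
  · rintro ⟨σ, τ, a, rfl, hτ, ha, hσ⟩
    by_cases h : σ = []
    · left; rw [h]; exact hτ
    · right; exact ⟨σ, τ, a, rfl, hτ, ha, hσ, h⟩
  · rintro (h | ⟨σ, τ, a, rfl, hτ, ha, hσ, h⟩)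
    · obtain ⟨a, t, ht⟩ := W_ne_nil h
      exact ⟨[], l, a, rfl, h, by rw [ht]; rfl, ⟨by simp, by simp⟩⟩
    · exact ⟨σ, τ, a, rfl, hτ, ha, hσ⟩

theorem Aug_split (hx : x ∈ Tp Cov) : Split Dl (W Cov x y m) (Pos Cov x y m) := by
  have hface : ∀ l ∈ Pos Cov x y m, ∃ F ∈ l, z F ≠ ∅ := by
    rintro l ⟨σ, τ, a, rfl, hτ, ha, hσ, h⟩
    obtain ⟨F, t, ht⟩ := List.exists_cons_of_ne_nil h
    refine ⟨F, by rw [ht]; simp, isF_iff.mp (Ch_isF hσ F (by rw [ht]; simp))⟩
  refine split_of ?_ ?_ ?_
  · rw [Set.disjoint_left]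
    intro l h1 h2
    obtain ⟨F, hF, hne⟩ := hface l h2
    exact hne (h1.1 F hF).2
  · intro l h1 l' h2 hd
    obtain ⟨F, hF, hne⟩ := hface l' h2
    exact hne (h1.1 F (hd.sublist.subset hF)).2
  · rw [← Aug_eq hx]; exact Aug_convex

/-- (i) the augmented complex is acyclic -/
theorem acy_Aug (h : OM Cov) (hx : x ∈ Tp Cov) : Acy Dl (Aug Cov x y m) := by
  refine acy_of_blocks (sq_of_convex Aug_convex) (fun l => l.dropWhile isF) List.length ?_ ?_
  · intro l _ l' _ hne
    exact dropWhile_Del isF (Del_of_Dl_ne hne)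
  · intro τ
    by_cases hτ : τ ∈ W Cov x y m
    swap
    · refine acy_empty.congr ?_
      ext l
      constructor
      · intro h0; exact absurd h0 (by simp)
      · rintro ⟨⟨σ, τ', a, rfl, hτ', ha, hσ⟩, h2⟩
        exfalso
        apply hτ
        have h2' : (σ ++ τ').dropWhile isF = τ := h2
        rw [dropWhile_append_all isF σ τ' (Ch_isF hσ), W_dropWhile hτ'] at h2'
        rw [← h2']; exact hτ'
    obtain ⟨a, t, ht⟩ := W_ne_nil hτ
    have ha : τ.head? = some a := by rw [ht]; rfl
    have haT : a ∈ Tp Cov := hτ.1 a (by rw [ht]; simp)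
    have hxa : x ≠ a := by
      have h1 := hτ.2.1
      rw [ht, List.isChain_cons_cons] at h1
      exact h1.1
    have hG := acy_Ch h _ x hx.1 a haT.1 (hx.2.trans haT.2.symm) hxa le_rfl
    refine (acy_append (t := τ) ?_ hG).congr ?_
    · intro c hc t' hd c' hc' heq
      have h1 := congrArg (List.dropWhile isF) heq
      rw [dropWhile_append_all isF c t' (Ch_isF hc), dropWhile_append_all isF c' _ (Ch_isF hc'),
        W_dropWhile hτ] at h1
      have h2 := congrArg List.length h1
      have h3 := (List.dropWhile_sublist isF (l := t')).length_le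
      have h4 := hd.length
      omega
    · ext l
      constructor
      · rintro ⟨c, hc, rfl⟩
        refine ⟨⟨c, τ, a, rfl, hτ, ha, hc⟩, ?_⟩
        show (c ++ τ).dropWhile isF = τ
        rw [dropWhile_append_all isF c τ (Ch_isF hc), W_dropWhile hτ]
      · rintro ⟨⟨σ, τ', a', rfl, hτ', ha', hσ⟩, h2⟩
        have h2' : (σ ++ τ').dropWhile isF = τ := h2
        rw [dropWhile_append_all isF σ τ' (Ch_isF hσ), W_dropWhile hτ'] at h2'
        subst h2'
        rw [ha] at ha'
        have : a = a' := Option.some.inj ha'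
        subst this
        exact ⟨σ, hσ, rfl⟩

end Walks

section Top

variable {Cov : Set (Sg ι)} {x y : Sg ι} {m : ι → ℕ}

/-- zero set of the last face -/
def topz (σ : List (Sg ι)) : Finset ι :=
  match σ.getLast? with
  | some F => z F
  | none => ∅

theorem topz_of {σ : List (Sg ι)} {F : Sg ι} (h : σ.getLast? = some F) : topz σ = z F := by
  unfold topz; rw [h]

theorem last_of_max {α : Type*} {R : α → α → Prop} {l : List α} (hl : l.Pairwise R) {a : α}
    (ha : a ∈ l) (hmax : ∀ b ∈ l, ¬ R a b) : l.getLast? = some a := by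
  obtain ⟨s, t, rfl⟩ := List.append_of_mem ha
  cases t with
  | nil => simp
  | cons b t =>
    exfalso
    rw [List.pairwise_append] at hl
    exact hmax b (by simp) ((List.pairwise_cons.mp hl.2.1).1 b (by simp))

theorem last_max {σ : List (Sg ι)} (h : σ.Pairwise (fun F G => z F ⊂ z G)) {F : Sg ι}
    (hF : σ.getLast? = some F) : ∀ G ∈ σ, G = F ∨ z G ⊂ z F := by
  obtain ⟨u, rfl⟩ := List.getLast?_eq_some_iff.mp hF
  intro G hG
  rw [List.pairwise_append] at h
  rcases List.mem_append.mp hG with h1 | h1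
  · exact Or.inr (h.2.2 G h1 F (by simp))
  · left; simpa using h1

theorem mem_of_getLast? {α : Type*} {l : List α} {a : α} (h : l.getLast? = some a) : a ∈ l := by
  obtain ⟨u, rfl⟩ := List.getLast?_eq_some_iff.mp h
  simp

theorem ne_nil_of_getLast? {α : Type*} {l : List α} {a : α} (h : l.getLast? = some a) :
    l ≠ [] := by
  rintro rfl; simp at h

theorem exists_last {α : Type*} {l : List α} (h : l ≠ []) : ∃ a, l.getLast? = some a := by
  cases h1 : l.getLast? with
  | none => exact absurd (List.getLast?_eq_none_iff.mp h1) h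
  | some a => exact ⟨a, rfl⟩

/-- a chain belongs to `Ch Cov x (sep x a)` iff the zero set of its last face is in `sep x a` -/
theorem Ch_of_last {X : Sg ι} {S S' : Finset ι} {σ : List (Sg ι)} {F : Sg ι}
    (h : σ ∈ Ch Cov X S) (hF : σ.getLast? = some F) (hS' : z F \ z X ⊆ S') :
    σ ∈ Ch Cov X S' := by
  refine ⟨?_, h.2⟩
  intro G hG
  refine ⟨(h.1 G hG).1, (h.1 G hG).2.1, (h.1 G hG).2.2.1, ?_⟩
  rcases last_max h.2 hF G hG with rfl | h1
  · exact hS'
  · intro i hi
    exact hS' (Finset.mem_sdiff.mpr ⟨h1.1 (Finset.mem_sdiff.mp hi).1, (Finset.mem_sdiff.mp hi).2⟩)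

theorem Pos_take {σ τ : List (Sg ι)} {a : Sg ι} {S : Finset ι} (hτ : τ ∈ W Cov x y m)
    (hσ : σ ∈ Ch Cov x S) : (σ ++ τ).takeWhile isF = σ :=
  takeWhile_append_all isF σ τ (Ch_isF hσ) (W_dropWhile hτ)

theorem Pos_mono_topz : ∀ l ∈ Pos Cov x y m, ∀ l' ∈ Pos Cov x y m,
    Dl (Finsupp.single l 1) l' ≠ 0 →
    topz (l'.takeWhile isF) = topz (l.takeWhile isF) ∨
      (topz (l'.takeWhile isF)).card < (topz (l.takeWhile isF)).card := by
  rintro l ⟨σ, τ, a, rfl, hτ, ha, hσ, hne⟩ l' ⟨σ', τ', a', rfl, hτ', ha', hσ', hne'⟩ hD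
  rw [Pos_take (a := a) hτ hσ, Pos_take (a := a') hτ' hσ']
  rcases Del_append (Del_of_Dl_ne hD) with ⟨s', h1, h2⟩ | ⟨t', h1, h2⟩
  · have h3 := (decomp_unique (Ch_isF hσ') (fun F hF => Ch_isF hσ F (h1.sublist.subset hF))
      (W_dropWhile hτ') (W_dropWhile hτ) h2).1
    subst h3
    obtain ⟨u, b, v, rfl, rfl⟩ := h1
    by_cases hv : v = []
    · subst hv
      right
      rw [List.append_nil] at hne' ⊢
      obtain ⟨c, hc⟩ := exists_last hne'
      rw [topz_of hc, topz_of (F := b) (by simp)]
      apply Finset.card_lt_card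
      have := hσ.2
      rw [List.pairwise_append] at this
      exact this.2.2 c (mem_of_getLast? hc) b (by simp)
    · left
      obtain ⟨c, hc⟩ := exists_last hv
      rw [topz_of (F := c) (by rw [getLast?_append_ne hv, hc]),
        topz_of (F := c) (by
          rw [getLast?_append_ne (by simp), List.getLast?_cons, hc]; rfl)]
  · left
    have htop : ∀ b ∈ t', b ∈ Tp Cov := fun b hb => hτ.1 b (h1.sublist.subset hb)
    have h3 := (decomp_unique (Ch_isF hσ') (Ch_isF hσ) (W_dropWhile hτ')
      (tope_dropWhile htop) h2).1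
    rw [h3]

theorem takeWhile_Del {α : Type*} (p : α → Bool) {l l' : List α} (h : Del l l')
    (hlen : (l'.takeWhile p).length ≤ (l.takeWhile p).length) :
    l'.takeWhile p = l.takeWhile p ∨ (l'.takeWhile p).length < (l.takeWhile p).length := by
  by_cases hlt : (l'.takeWhile p).length < (l.takeWhile p).length
  · exact Or.inr hlt
  left
  have heq : (l'.takeWhile p).length = (l.takeWhile p).length := by omega
  clear hlt hlen
  induction l generalizing l' with
  | nil => exact absurd h not_Del_nil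
  | cons a l ih =>
    rcases Del_cons_iff.mp h with rfl | ⟨l'', h1, rfl⟩
    · by_cases ha : p a = true
      · exfalso
        rw [List.takeWhile_cons, if_pos ha] at heq
        simp at heq
      · rw [List.takeWhile_cons, if_neg ha] at heq ⊢
        exact List.length_eq_zero_iff.mp heq
    · by_cases ha : p a = true
      · rw [List.takeWhile_cons, List.takeWhile_cons, if_pos ha, if_pos ha] at heq ⊢
        simp only [List.length_cons, Nat.add_right_cancel_iff] at heq
        rw [ih h1 heq]
      · rw [List.takeWhile_cons, List.takeWhile_cons, if_neg ha, if_neg ha]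

theorem Pos_mono_take : ∀ l ∈ Pos Cov x y m, ∀ l' ∈ Pos Cov x y m,
    Dl (Finsupp.single l 1) l' ≠ 0 →
    l'.takeWhile isF = l.takeWhile isF ∨
      (l'.takeWhile isF).length < (l.takeWhile isF).length := by
  rintro l ⟨σ, τ, a, rfl, hτ, ha, hσ, hne⟩ l' ⟨σ', τ', a', rfl, hτ', ha', hσ', hne'⟩ hD
  rw [Pos_take (a := a) hτ hσ, Pos_take (a := a') hτ' hσ']
  rcases Del_append (Del_of_Dl_ne hD) with ⟨s', h1, h2⟩ | ⟨t', h1, h2⟩
  · have h3 := (decomp_unique (Ch_isF hσ') (fun F hF => Ch_isF hσ F (h1.sublist.subset hF))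
      (W_dropWhile hτ') (W_dropWhile hτ) h2).1
    subst h3
    right
    have := h1.length
    omega
  · left
    have htop : ∀ b ∈ t', b ∈ Tp Cov := fun b hb => hτ.1 b (h1.sublist.subset hb)
    exact (decomp_unique (Ch_isF hσ') (Ch_isF hσ) (W_dropWhile hτ')
      (tope_dropWhile htop) h2).1

/-- (iii) -/
theorem tf_Pos (h : OM Cov) (hx : x ∈ Tp Cov)
    (gate : ∀ F ∈ Cov, le F x → z F ≠ ∅ → z F ≠ supp m → Acy Dl (WB Cov x y m (z F)))
    (hD : Tf Dl {l | l ∈ Pos Cov x y m ∧ topz (l.takeWhile isF) = supp m}) :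
    Tf Dl (Pos Cov x y m) := by
  have hsq : Sq Dl (Pos Cov x y m) := (Aug_split hx).sq2
  refine tf_of_blocks hsq (fun l => topz (l.takeWhile isF)) Finset.card Pos_mono_topz
    (supp m) ?_ hD
  intro q hq
  refine acy_of_blocks (sq_block hsq (fun l => topz (l.takeWhile isF)) Finset.card
    Pos_mono_topz q) (fun l => l.takeWhile isF) List.length ?_ ?_
  · intro l hl l' hl' hne
    exact Pos_mono_take l hl.1 l' hl'.1 hne
  · intro σ
    by_cases hex : ∃ l₀, (l₀ ∈ Pos Cov x y m ∧ topz (l₀.takeWhile isF) = q) ∧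
        l₀.takeWhile isF = σ
    swap
    · refine acy_empty.congr ?_
      ext l
      constructor
      · intro h0; exact absurd h0 (by simp)
      · intro h0; exact absurd ⟨l, h0⟩ hex
    obtain ⟨l₀, ⟨⟨σ₀, τ₀, a₀, rfl, hτ₀, ha₀, hσ₀, hne₀⟩, htop⟩, htk⟩ := hex
    rw [Pos_take (a := a₀) hτ₀ hσ₀] at htk htop
    subst htk
    obtain ⟨F, hF⟩ := exists_last hne₀
    have hFm := mem_of_getLast? hF
    obtain ⟨hFC, hFx, hFz, hFs⟩ := hσ₀.1 F hFm
    rw [topz_of hF] at htop
    have hzx : z x = ∅ := hx.2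
    have hFne : z F ≠ ∅ := isF_iff.mp (Ch_isF hσ₀ F hFm)
    have hg := gate F hFC hFx hFne (by rw [htop]; exact hq)
    refine (acy_prefix isF hg (fun τ hτ => W_dropWhile hτ.1) σ₀ (Ch_isF hσ₀)).congr ?_
    ext l
    constructor
    · rintro ⟨τ, ⟨hτ, a, ha, hsub⟩, rfl⟩
      refine ⟨⟨⟨σ₀, τ, a, rfl, hτ, ha, ?_, hne₀⟩, ?_⟩, ?_⟩
      · exact Ch_of_last hσ₀ hF (by rw [hzx, Finset.sdiff_empty]; exact hsub)
      · rw [Pos_take (a := a) hτ hσ₀, topz_of hF, htop]
      · exact Pos_take (a := a) hτ hσ₀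
    · rintro ⟨⟨⟨σ, τ, a, rfl, hτ, ha, hσ, hne⟩, h1⟩, h2⟩
      have h2' : (σ ++ τ).takeWhile isF = σ₀ := h2
      rw [Pos_take (a := a) hτ hσ] at h2'
      subst h2'
      refine ⟨τ, ⟨hτ, a, ha, ?_⟩, rfl⟩
      have := (hσ.1 F hFm).2.2.2
      rwa [hzx, Finset.sdiff_empty] at this

end Top

section Final

variable {Cov : Set (Sg ι)} {x y : Sg ι} {m : ι → ℕ}

/-- product of a set of chains of faces and a set of walks -/
theorem prod_convex {A B : Set (List (Sg ι))} (hA : Convex1 A) (hB : Convex1 B)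
    (hAf : ∀ σ ∈ A, ∀ F ∈ σ, isF F = true) (hBt : ∀ τ ∈ B, ∀ a ∈ τ, a ∈ Tp Cov) :
    Convex1 {l | ∃ σ τ, l = σ ++ τ ∧ σ ∈ A ∧ τ ∈ B} := by
  rintro l ⟨σ, τ, rfl, hσ, hτ⟩ l' hd l'' ⟨σ'', τ'', rfl, hσ'', hτ''⟩ hd'
  rcases Del_append hd with ⟨σ', h1, rfl⟩ | ⟨τ', h1, rfl⟩
  · have hσ'f : ∀ F ∈ σ', isF F = true := fun F hF => hAf σ hσ F (h1.sublist.subset hF)
    rcases Del_append hd' with ⟨s'', h2, h3⟩ | ⟨t'', h2, h3⟩
    · have h4 := decomp_unique (hAf _ hσ'') (fun F hF => hσ'f F (h2.sublist.subset hF))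
        (tope_dropWhile (hBt _ hτ'')) (tope_dropWhile (hBt _ hτ)) h3
      exact ⟨σ', τ, rfl, hA σ hσ σ' h1 σ'' hσ'' (h4.1 ▸ h2), hτ⟩
    · have h4 := decomp_unique (hAf _ hσ'') hσ'f (tope_dropWhile (hBt _ hτ''))
        (tope_dropWhile (fun a ha => hBt _ hτ a (h2.sublist.subset ha))) h3
      exact ⟨σ', τ, rfl, h4.1 ▸ hσ'', hτ⟩
  · have hτ't : ∀ a ∈ τ', a ∈ Tp Cov := fun a ha => hBt τ hτ a (h1.sublist.subset ha)
    rcases Del_append hd' with ⟨s'', h2, h3⟩ | ⟨t'', h2, h3⟩
    · have h4 := decomp_unique (hAf _ hσ'') (fun F hF => hAf σ hσ F (h2.sublist.subset hF))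
        (tope_dropWhile (hBt _ hτ'')) (tope_dropWhile hτ't) h3
      exact ⟨σ, τ', rfl, hσ, h4.2 ▸ hτ''⟩
    · have h4 := decomp_unique (hAf _ hσ'') (hAf _ hσ) (tope_dropWhile (hBt _ hτ''))
        (tope_dropWhile (fun a ha => hτ't a (h2.sublist.subset ha))) h3
      exact ⟨σ, τ', rfl, hσ, hB τ hτ τ' h1 τ'' hτ'' (h4.2 ▸ h2)⟩

/-- chains of faces of `X₁` ending with `FB` -/
def ChL (Cov : Set (Sg ι)) (X₁ FB : Sg ι) : Set (List (Sg ι)) :=
  {σ | σ ∈ Ch Cov X₁ (z FB \ z X₁) ∧ σ.getLast? = some FB}

theorem ChL_convex {X₁ FB : Sg ι} : Convex1 (ChL Cov X₁ FB) := by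
  rintro σ ⟨hσ, hl⟩ σ' hd σ'' ⟨hσ'', hl''⟩ hd'
  refine ⟨Ch_sublist hσ hd.sublist, ?_⟩
  refine last_of_max (Ch_sublist hσ hd.sublist).2 (hd'.sublist.subset (mem_of_getLast? hl'')) ?_
  intro b hb hR
  rcases last_max hσ.2 hl b (hd.sublist.subset hb) with rfl | h1
  · exact hR.2 (Finset.Subset.refl _)
  · exact (h1.trans hR).2 (Finset.Subset.refl _)

/-- `DD X₁` -/
def DD (Cov : Set (Sg ι)) (x y : Sg ι) (m : ι → ℕ) (FB X₁ : Sg ι) : Set (List (Sg ι)) :=
  {l | ∃ σ τ, l = σ ++ τ ∧ σ ∈ ChL Cov X₁ FB ∧ τ ∈ WB Cov x y m (z FB)}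

theorem DD_convex {FB X₁ : Sg ι} : Convex1 (DD Cov x y m FB X₁) :=
  prod_convex (Cov := Cov) ChL_convex WB_convex (fun _ hσ => Ch_isF hσ.1) (fun _ hτ => hτ.1.1)

/-- (iv) -/
theorem tf_DD (h : OM Cov) {FB : Sg ι} (hFB : FB ∈ Cov) (hFBx : le FB x)
    (hWB : Tf Dl (WB Cov x y m (z FB))) :
    ∀ n : ℕ, ∀ X₁ ∈ Cov, le X₁ x → z X₁ ⊂ z FB → (z FB \ z X₁).card ≤ n →
      Tf Dl (DD Cov x y m FB X₁) := by
  intro n
  induction n with
  | zero =>
    intro X₁ _ _ hlt hc
    exfalso
    obtain ⟨i, hi1, hi2⟩ := Finset.exists_of_ssubset hlt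
    have h0 : z FB \ z X₁ = ∅ := Finset.card_eq_zero.mp (by omega)
    have : i ∈ z FB \ z X₁ := Finset.mem_sdiff.mpr ⟨hi1, hi2⟩
    rw [h0] at this; simp at this
  | succ n ih =>
    intro X₁ hX₁ hX₁x hlt hcard
    obtain ⟨i₀, hi₀1, hi₀2⟩ := Finset.exists_of_ssubset hlt
    have hQ : comp FB (-X₁) ∈ Cov := h.comp FB hFB _ (h.neg X₁ hX₁)
    have hzQ : z (comp FB (-X₁)) = z X₁ := by
      rw [z_comp, z_neg]; exact Finset.inter_eq_right.mpr hlt.1
    have hsepQ : sep (comp FB (-X₁)) X₁ = z FB \ z X₁ := by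
      ext i
      rw [Finset.mem_sdiff, mem_sep, mem_z, mem_z, comp]
      by_cases hi : FB i = 0
      · by_cases hi2 : X₁ i = 0
        · simp [hi, hi2]
        · simp only [hi, if_true, hi2, not_false_eq_true, and_true, Pi.neg_apply]
          have : ∀ s : SignType, s ≠ 0 → -s ≠ s := by decide
          simp [this _ hi2]
      · have h1 : X₁ i ≠ 0 := fun h0 => hi (mem_z.mp (hlt.1 (mem_z.mpr h0)))
        have h2 := (hFBx i).resolve_left hi
        have h3 := (hX₁x i).resolve_left h1
        simp [hi, h2, h3]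
    have hneQ : comp FB (-X₁) ≠ X₁ := by
      intro h0
      have : i₀ ∈ sep (comp FB (-X₁)) X₁ := by
        rw [hsepQ]; exact Finset.mem_sdiff.mpr ⟨hi₀1, hi₀2⟩
      exact (mem_sep.mp this) (congrFun h0 i₀)
    obtain ⟨Y, hY, hYX₁, hzY, hYsep, hcls⟩ := h.wall _ hQ X₁ hX₁ hzQ hneQ
    rw [hsepQ] at hYsep
    have hYx : le Y x := le_trans' hYX₁ hX₁x
    have hYB : z Y ⊆ z FB := by
      intro i hi
      by_cases h1 : i ∈ z X₁
      · exact hlt.1 h1
      · exact (Finset.mem_sdiff.mp (hYsep (Finset.mem_sdiff.mpr ⟨hi, h1⟩))).1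
    have hYne : z Y ≠ ∅ := by
      intro h0; rw [h0] at hzY; exact (Finset.not_ssubset_empty _) hzY
    by_cases hcase : z Y = z FB
    · have hYFB : Y = FB := eq_of_le_z hYx hFBx hcase
      refine (tf_cons (a := FB) ?_ hWB).congr ?_
      · rintro c hc c' _ rfl
        exact hYne (by rw [hYFB]; exact (hc.1.1 FB (by simp)).2)
      · ext l
        constructor
        · rintro ⟨τ, hτ, rfl⟩
          refine ⟨[FB], τ, rfl, ⟨⟨?_, by simp⟩, by simp⟩, hτ⟩
          intro F hF
          rw [List.mem_singleton] at hF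
          subst hF
          exact ⟨hFB, hYFB ▸ hYX₁, hlt, Finset.Subset.refl _⟩
        · rintro ⟨σ, τ, rfl, ⟨hσ, hσl⟩, hτ⟩
          refine ⟨τ, hτ, ?_⟩
          obtain ⟨u, rfl⟩ := List.getLast?_eq_some_iff.mp hσl
          have hu : u = [] := by
            rw [List.eq_nil_iff_forall_not_mem]
            intro G hG
            have hpw := hσ.2
            rw [List.pairwise_append] at hpw
            have h1 : z G ⊂ z FB := hpw.2.2 G hG FB (by simp)
            obtain ⟨a1, a2, a3, a4⟩ := hσ.1 G (by simp [hG])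
            obtain ⟨j, hj1, hj2⟩ := Finset.exists_of_ssubset a3
            have h2 : z Y ⊆ z G := hcls G a1 a3.1
              ⟨j, Finset.mem_sdiff.mpr ⟨by rw [hcase]; exact h1.1 hj1, hj2⟩, mem_z.mp hj1⟩
            rw [hcase] at h2
            exact h1.2 h2
          rw [hu]; rfl
    · have hYltB : z Y ⊂ z FB := Finset.ssubset_iff_subset_ne.mpr ⟨hYB, hcase⟩
      let T1 : Set (List (Sg ι)) := {l | l ∈ DD Cov x y m FB X₁ ∧ ∀ F ∈ l, z F ≠ z Y}
      let T2 : Set (List (Sg ι)) := {l | l ∈ DD Cov x y m FB X₁ ∧ ∃ F ∈ l, z F = z Y}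
      have hS : DD Cov x y m FB X₁ = T1 ∪ T2 := by
        ext l
        constructor
        · intro hl
          by_cases h1 : ∃ F ∈ l, z F = z Y
          · exact Or.inr ⟨hl, h1⟩
          · left; refine ⟨hl, ?_⟩
            intro F hF h2; exact h1 ⟨F, hF, h2⟩
        · rintro (h1 | h1)
          · exact h1.1
          · exact h1.1
      have hsp : Split Dl T1 T2 := by
        refine split_of ?_ ?_ ?_
        · rw [Set.disjoint_left]
          rintro l ⟨_, h1⟩ ⟨_, F, hF, h2⟩
          exact h1 F hF h2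
        · rintro l ⟨_, h1⟩ l' ⟨_, F, hF, h2⟩ hdel
          exact h1 F (hdel.sublist.subset hF) h2
        · rw [← hS]; exact DD_convex
      rw [hS]
      refine hsp.tf_of_sub_acy ?_ ?_
      · -- T1 acyclic
        let p : Sg ι → Bool := fun F => decide (¬ z Y ⊆ z F)
        have hp : ∀ F, p F = true ↔ ¬ z Y ⊆ z F := fun F => by simp [p]
        have hpFB : ¬ p FB = true := by rw [hp]; exact not_not.mpr hYB
        refine acy_of_blocks hsp.sq1 (fun l => l.dropWhile p) List.length ?_ ?_
        · intro l _ l' _ hne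
          exact dropWhile_Del p (Del_of_Dl_ne hne)
        · intro q
          by_cases hex : ∃ l₀, l₀ ∈ T1 ∧ l₀.dropWhile p = q
          swap
          · refine acy_empty.congr ?_
            ext l
            constructor
            · intro h0; exact absurd h0 (by simp)
            · intro h0; exact absurd ⟨l, h0⟩ hex
          obtain ⟨l₀, ⟨⟨σ₀, τ₀, rfl, hσ₀, hτ₀⟩, hno₀⟩, hq⟩ := hex
          -- decomposition of a chain ending with FB
          have hdec : ∀ σ ∈ ChL Cov X₁ FB, ∀ τ : List (Sg ι),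
              ∃ c D ρ', σ = c ++ (D :: ρ') ∧ (∀ F ∈ c, p F = true) ∧ ¬ p D = true ∧
                (σ ++ τ).dropWhile p = (D :: ρ') ++ τ := by
            intro σ hσ τ
            obtain ⟨c, hc, hcp⟩ := exists_take p σ
            cases hd : σ.dropWhile p with
            | nil =>
              exfalso
              exact hpFB (all_of_dropWhile_nil p σ hd FB (mem_of_getLast? hσ.2))
            | cons D ρ' =>
              rw [hd] at hc
              have hD := dropWhile_head p σ D ρ' hd
              refine ⟨c, D, ρ', hc, hcp, hD, ?_⟩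
              conv_lhs => rw [hc]
              rw [List.append_assoc, dropWhile_append_all p c _ hcp, List.cons_append,
                List.dropWhile_cons, if_neg hD]
          obtain ⟨c₀, D, ρ', hσ₀c, hc₀p, hDp, hdrop₀⟩ := hdec σ₀ hσ₀ τ₀
          rw [hdrop₀] at hq
          subst hq
          have hDmem : D ∈ σ₀ := by rw [hσ₀c]; simp
          obtain ⟨hD, hDX₁, hX₁D, hDs⟩ := hσ₀.1.1 D hDmem
          have hYD : z Y ⊆ z D := by rw [hp] at hDp; exact not_not.mp hDp
          have hDne : z D ≠ z Y := hno₀ D (by simp [hDmem])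
          have hZ₁ : comp (comp D (-Y)) X₁ ∈ Cov :=
            h.comp _ (h.comp D hD _ (h.neg Y hY)) X₁ hX₁
          have hzZ₁ : z (comp (comp D (-Y)) X₁) = z X₁ := by
            rw [z_comp, z_comp, z_neg, Finset.inter_eq_right]
            exact Finset.subset_inter hX₁D.1 hzY.1
          have hsep₁ : sep X₁ (comp (comp D (-Y)) X₁) = z D \ z Y := by
            ext i
            rw [Finset.mem_sdiff, mem_sep, mem_z, mem_z]
            by_cases hDi : D i = 0
            · by_cases hYi : Y i = 0
              · simp [comp, hDi, hYi]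
              · have h1 := (hYX₁ i).resolve_left hYi
                have h0 : ∀ s : SignType, s ≠ 0 → s ≠ -s := by decide
                have h2 := h0 _ hYi
                have e : comp (comp D (-Y)) X₁ i = -Y i := by simp [comp, hDi, hYi]
                rw [e, ← h1]
                simp [hDi, hYi, h2]
            · have h1 := (hDX₁ i).resolve_left hDi
              have hA : comp D (-Y) i = D i := by simp [comp, hDi]
              have e : comp (comp D (-Y)) X₁ i = X₁ i := by
                rw [comp, hA, if_neg hDi, h1]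
              rw [e]
              simp [hDi]
          have hne₁ : X₁ ≠ comp (comp D (-Y)) X₁ := by
            obtain ⟨j, hj1, hj2⟩ := Finset.exists_of_ssubset
              (Finset.ssubset_iff_subset_ne.mpr ⟨hYD, fun h0 => hDne h0.symm⟩)
            have : j ∈ sep X₁ (comp (comp D (-Y)) X₁) := by
              rw [hsep₁]; exact Finset.mem_sdiff.mpr ⟨hj1, hj2⟩
            intro h0
            exact (mem_sep.mp this) (congrFun h0 j)
          have hG := acy_Ch h _ X₁ hX₁ _ hZ₁ hzZ₁.symm hne₁ le_rfl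
          rw [hsep₁] at hG
          have hpc : ∀ c ∈ Ch Cov X₁ (z D \ z Y), ∀ F ∈ c, p F = true := by
            intro c hc F hF
            rw [hp]
            intro hYF
            obtain ⟨j, hj1, hj2⟩ := Finset.exists_of_ssubset hzY
            have := (hc.1 F hF).2.2.2 (Finset.mem_sdiff.mpr ⟨hYF hj1, hj2⟩)
            exact (Finset.mem_sdiff.mp this).2 hj1
          have hdropq : ((D :: ρ') ++ τ₀).dropWhile p = (D :: ρ') ++ τ₀ := by
            rw [List.cons_append, List.dropWhile_cons, if_neg hDp]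
          have hρf : ∀ F ∈ D :: ρ', isF F = true := fun F hF =>
            Ch_isF hσ₀.1 F (by rw [hσ₀c]; exact List.mem_append_right _ hF)
          refine (acy_append (t := (D :: ρ') ++ τ₀) ?_ hG).congr ?_
          · intro c hc t' hdel c' hc' heq
            have h1 := congrArg (List.dropWhile p) heq
            rw [dropWhile_append_all p c t' (hpc c hc),
              dropWhile_append_all p c' _ (hpc c' hc'), hdropq] at h1
            have h2 := congrArg List.length h1
            have h3 := (List.dropWhile_sublist p (l := t')).length_le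
            have h4 := hdel.length
            omega
          · have hpwρ : (D :: ρ').Pairwise (fun F G => z F ⊂ z G) := by
              have := hσ₀.1.2
              rw [hσ₀c, List.pairwise_append] at this
              exact this.2.1
            have hlastρ : (D :: ρ').getLast? = some FB := by
              have := hσ₀.2
              rwa [hσ₀c, getLast?_append_ne (by simp)] at this
            ext l
            constructor
            · rintro ⟨c, hc, rfl⟩
              have hcF : ∀ F ∈ c, z F ⊂ z D ∧ z F ≠ z Y := by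
                intro F hF
                obtain ⟨a1, a2, a3, a4⟩ := hc.1 F hF
                have hnF : ¬ z Y ⊆ z F := (hp F).mp (hpc c hc F hF)
                refine ⟨Finset.ssubset_iff_subset_ne.mpr ⟨?_, ?_⟩, ?_⟩
                · intro k hk
                  by_cases hkX : k ∈ z X₁
                  · exact hX₁D.1 hkX
                  · exact (Finset.mem_sdiff.mp (a4 (Finset.mem_sdiff.mpr ⟨hk, hkX⟩))).1
                · intro h0; exact hnF (h0 ▸ hYD)
                · intro h0; exact hnF (h0 ▸ Finset.Subset.refl _)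
              refine ⟨⟨⟨c ++ D :: ρ', τ₀, by simp, ⟨⟨?_, ?_⟩, ?_⟩, hτ₀⟩, ?_⟩, ?_⟩
              · intro F hF
                rcases List.mem_append.mp hF with hF | hF
                · obtain ⟨a1, a2, a3, a4⟩ := hc.1 F hF
                  refine ⟨a1, a2, a3, ?_⟩
                  intro i hi
                  exact hDs (Finset.mem_sdiff.mpr
                    ⟨(hcF F hF).1.1 (Finset.mem_sdiff.mp hi).1, (Finset.mem_sdiff.mp hi).2⟩)
                · exact hσ₀.1.1 F (by rw [hσ₀c]; exact List.mem_append_right _ hF)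
              · rw [List.pairwise_append]
                refine ⟨hc.2, hpwρ, ?_⟩
                intro F hF G hG'
                rcases List.mem_cons.mp hG' with rfl | hG'
                · exact (hcF F hF).1
                · exact (hcF F hF).1.trans ((List.pairwise_cons.mp hpwρ).1 G hG')
              · rw [getLast?_append_ne (by simp)]; exact hlastρ
              · intro F hF
                rcases List.mem_append.mp hF with hF | hF
                · exact (hcF F hF).2
                · apply hno₀ F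
                  rcases List.mem_append.mp hF with hF | hF
                  · exact List.mem_append_left _ (by rw [hσ₀c]; exact List.mem_append_right _ hF)
                  · exact List.mem_append_right _ hF
              · show (c ++ (D :: ρ' ++ τ₀)).dropWhile p = D :: ρ' ++ τ₀
                rw [dropWhile_append_all p c _ (hpc c hc), hdropq]
            · rintro ⟨⟨⟨σ, τ, rfl, hσ, hτ⟩, hno⟩, hl2⟩
              obtain ⟨c, D', ρ'', hσc, hcp, hD'p, hdrop⟩ := hdec σ hσ τ
              have hl2' : (σ ++ τ).dropWhile p = D :: ρ' ++ τ₀ := hl2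
              rw [hdrop] at hl2'
              have huniq := decomp_unique
                (fun F hF => Ch_isF hσ.1 F (by rw [hσc]; exact List.mem_append_right _ hF)) hρf
                (tope_dropWhile hτ.1.1) (tope_dropWhile hτ₀.1.1) hl2'
              obtain ⟨h5, h6⟩ := huniq
              refine ⟨c, ?_, ?_⟩
              · have hcl : c.Sublist σ := by
                  rw [hσc]; exact List.sublist_append_left c (D' :: ρ'')
                have hcCh := Ch_sublist hσ.1 hcl
                refine ⟨?_, hcCh.2⟩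
                intro F hF
                obtain ⟨a1, a2, a3, a4⟩ := hcCh.1 F hF
                refine ⟨a1, a2, a3, ?_⟩
                have hD' : D' = D := (List.cons.inj h5).1
                intro i hi
                have hpw := hσ.1.2
                rw [hσc, List.pairwise_append] at hpw
                refine Finset.mem_sdiff.mpr
                  ⟨(hD' ▸ (hpw.2.2 F hF D' (by simp))).1 (Finset.mem_sdiff.mp hi).1, ?_⟩
                intro hiY
                apply (hp F).mp (hcp F hF)
                exact hcls F a1 a3.1 ⟨i, Finset.mem_sdiff.mpr ⟨hiY, (Finset.mem_sdiff.mp hi).2⟩,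
                  mem_z.mp (Finset.mem_sdiff.mp hi).1⟩
              · rw [hσc, h5, h6, List.append_assoc]
      · -- T2
        have hIH := ih Y hY hYx hYltB (by
          have : (z FB \ z Y).card < (z FB \ z X₁).card := by
            apply Finset.card_lt_card
            obtain ⟨j, hj1, hj2⟩ := Finset.exists_of_ssubset hzY
            rw [Finset.ssubset_iff_of_subset (Finset.sdiff_subset_sdiff (Finset.Subset.refl _)
              hzY.1)]
            exact ⟨j, Finset.mem_sdiff.mpr ⟨hYB hj1, hj2⟩,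
              fun h0 => (Finset.mem_sdiff.mp h0).2 hj1⟩
          omega)
        refine (tf_cons (a := Y) ?_ hIH).congr ?_
        · rintro c ⟨σ, τ, hc, hσ, hτ⟩ c' _ hcc
          obtain ⟨F, t, ht⟩ := List.exists_cons_of_ne_nil (ne_nil_of_getLast? hσ.2)
          rw [hc, ht, List.cons_append] at hcc
          have hFY : F = Y := (List.cons.inj hcc).1
          have := (hσ.1.1 F (by rw [ht]; simp)).2.2.1
          rw [hFY] at this
          exact this.2 (Finset.Subset.refl _)
        · ext l
          constructor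
          · rintro ⟨l', ⟨σ, τ, rfl, hσ, hτ⟩, rfl⟩
            refine ⟨⟨Y :: σ, τ, rfl, ⟨⟨?_, ?_⟩, ?_⟩, hτ⟩, Y, by simp, rfl⟩
            · intro F hF
              rcases List.mem_cons.mp hF with rfl | hF
              · exact ⟨hY, hYX₁, hzY, hYsep⟩
              · obtain ⟨a1, a2, a3, a4⟩ := hσ.1.1 F hF
                refine ⟨a1, le_trans' a2 hYX₁, hzY.trans a3, ?_⟩
                intro i hi
                refine Finset.mem_sdiff.mpr ⟨?_, (Finset.mem_sdiff.mp hi).2⟩
                by_cases hiY : i ∈ z Y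
                · exact hYB hiY
                · exact (Finset.mem_sdiff.mp
                    (a4 (Finset.mem_sdiff.mpr ⟨(Finset.mem_sdiff.mp hi).1, hiY⟩))).1
            · rw [List.pairwise_cons]
              exact ⟨fun G hG => (hσ.1.1 G hG).2.2.1, hσ.1.2⟩
            · rw [List.getLast?_cons, hσ.2]; rfl
          · rintro ⟨⟨σ, τ, rfl, hσ, hτ⟩, F, hF, hFz⟩
            have hFσ : F ∈ σ := by
              rcases List.mem_append.mp hF with h1 | h1
              · exact h1
              · exact absurd (hFz ▸ (hτ.1.1 F h1).2) hYne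
            obtain ⟨b1, b2, b3, b4⟩ := hσ.1.1 F hFσ
            have hFY : F = Y := eq_of_le_z (le_trans' b2 hX₁x) hYx hFz
            subst hFY
            obtain ⟨s, t, hst⟩ := List.append_of_mem hFσ
            have hs : s = [] := by
              rw [List.eq_nil_iff_forall_not_mem]
              intro a ha
              have hpw := hσ.1.2
              rw [hst, List.pairwise_append] at hpw
              have h1 : z a ⊂ z F := hpw.2.2 a ha F (by simp)
              obtain ⟨a1, a2, a3, a4⟩ := hσ.1.1 a (by rw [hst]; simp [ha])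
              obtain ⟨j, hj1, hj2⟩ := Finset.exists_of_ssubset a3
              exact h1.2 (hcls a a1 a3.1 ⟨j, Finset.mem_sdiff.mpr ⟨h1.1 hj1, hj2⟩, mem_z.mp hj1⟩)
            subst hs
            rw [List.nil_append] at hst
            have htne : t ≠ [] := by
              rintro rfl
              have := hσ.2
              rw [hst] at this
              simp only [List.getLast?_singleton, Option.some.injEq] at this
              exact hcase (by rw [this])
            refine ⟨t ++ τ, ⟨t, τ, rfl, ⟨?_, ?_⟩, hτ⟩, by rw [hst]; rfl⟩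
            · have hpw := hσ.1.2
              rw [hst] at hpw
              refine ⟨?_, (List.pairwise_cons.mp hpw).2⟩
              intro G hG
              obtain ⟨a1, a2, a3, a4⟩ := hσ.1.1 G (by rw [hst]; simp [hG])
              have h1 : z F ⊂ z G := (List.pairwise_cons.mp hpw).1 G hG
              refine ⟨a1, le_of_z_subset b2 a2 h1.1, h1, ?_⟩
              intro i hi
              refine Finset.mem_sdiff.mpr ⟨?_, (Finset.mem_sdiff.mp hi).2⟩
              exact (Finset.mem_sdiff.mp (a4 (Finset.mem_sdiff.mpr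
                ⟨(Finset.mem_sdiff.mp hi).1,
                  fun h0 => (Finset.mem_sdiff.mp hi).2 (hzY.1 h0)⟩))).1
            · have := hσ.2
              rw [hst, List.getLast?_cons] at this
              obtain ⟨b, hb⟩ := exists_last htne
              rw [hb] at this ⊢
              simpa using this

/-- (v) walks whose first step is the opposite of `x` across `FB` -/
theorem tf_WB (h : OM Cov) (hx : x ∈ Tp Cov) {FB : Sg ι} (hFB : FB ∈ Cov)
    (hFBx : le FB x) (hz : z FB = supp m)
    (ih : ∀ u ∈ Tp Cov, ∀ m' : ι → ℕ, ∑ i, m' i < ∑ i, m i → Tf Dl (W Cov u y m'))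
    (hne : supp m ≠ ∅) : Tf Dl (WB Cov x y m (z FB)) := by
  set u := comp FB (-x) with hu
  have huT : u ∈ Tp Cov := by
    refine ⟨h.comp FB hFB _ (h.neg x hx.1), ?_⟩
    rw [hu, z_comp, z_neg, hx.2, Finset.inter_empty]
  let m' : ι → ℕ := fun i => m i - (if i ∈ z FB then 1 else 0)
  have hm : ∀ i, m i = (if i ∈ z FB then 1 else 0) + m' i := by
    intro i
    by_cases hi : i ∈ z FB
    · have h1 : i ∈ supp m := hz ▸ hi
      have h2 : m i ≠ 0 := (Finset.mem_filter.mp h1).2
      simp only [m', if_pos hi]; omega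
    · simp [m', hi]
  have hxu : ∀ i, (if x i ≠ u i then 1 else 0 : ℕ) = if i ∈ z FB then 1 else 0 := by
    intro i
    have hxi : x i ≠ 0 := by
      intro h0
      have : i ∈ z x := mem_z.mpr h0
      rw [hx.2] at this; simp at this
    by_cases hi : FB i = 0
    · have : ∀ s : SignType, s ≠ 0 → s ≠ -s := by decide
      have h1 : x i ≠ u i := by
        simp only [hu, comp, hi, if_true, Pi.neg_apply]; exact this _ hxi
      rw [if_pos h1, if_pos (mem_z.mpr hi)]
    · have h1 : x i = u i := by
        simp only [hu, comp, hi, if_false]; exact ((hFBx i).resolve_left hi).symm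
      rw [if_neg (not_not.mpr h1), if_neg (fun h0 => hi (mem_z.mp h0))]
  have hxneu : x ≠ u := by
    obtain ⟨i, hi⟩ := Finset.nonempty_iff_ne_empty.mpr hne
    intro h0
    have h1 := hxu i
    rw [if_neg (not_not.mpr (congrFun h0 i)), if_pos (hz ▸ hi)] at h1
    exact absurd h1 (by norm_num)
  -- every element starts with u
  have hstart : ∀ τ ∈ WB Cov x y m (z FB), ∃ τ', τ = u :: τ' ∧ cross (u :: τ') = m' := by
    rintro τ ⟨hτ, a, ha, hsub⟩
    obtain ⟨b, t, rfl⟩ := W_ne_nil hτ
    simp only [List.head?_cons, Option.some.injEq] at ha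
    subst ha
    have h1 : sep x b ⊆ z FB := hz ▸ sep_subset_supp hτ rfl
    have hbT := hτ.1 b (by simp)
    have hbu : b = u := by
      funext i
      have hxi : x i ≠ 0 := by
        intro h0
        have : i ∈ z x := mem_z.mpr h0
        rw [hx.2] at this; simp at this
      have hbi : b i ≠ 0 := by
        intro h0
        have : i ∈ z b := mem_z.mpr h0
        rw [hbT.2] at this; simp at this
      by_cases hi : FB i = 0
      · have h2 := mem_sep.mp (hsub (mem_z.mpr hi))
        have h3 := sign_eq_neg hbi hxi (Ne.symm h2)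
        simp only [hu, comp, hi, if_true, Pi.neg_apply]; exact h3
      · have h2 : x i = b i := by
          by_contra hne
          exact hi (mem_z.mp (h1 (mem_sep.mpr hne)))
        simp only [hu, comp, hi, if_false]
        rw [← h2]; exact ((hFBx i).resolve_left hi).symm
    subst hbu
    refine ⟨t, rfl, ?_⟩
    funext i
    have h2 := congrFun hτ.2.2.2 i
    rw [cross_cons_cons, hxu i, hm i] at h2
    omega
  by_cases hm'0 : m' = 0
  · apply tf_of_noDel
    intro l hl l' hl' hd
    have key : ∀ l ∈ WB Cov x y m (z FB), l.length = 1 := by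
      intro l hl
      obtain ⟨τ', rfl, hc⟩ := hstart l hl
      cases τ' with
      | nil => rfl
      | cons b t =>
        exfalso
        have hch := hl.1.2.1
        rw [List.isChain_cons_cons, List.isChain_cons_cons] at hch
        obtain ⟨i, hi⟩ := Function.ne_iff.mp hch.2.1
        have := congrFun hc i
        rw [hm'0, cross_cons_cons, if_pos hi] at this
        simp at this
    have h1 := key l hl
    have h2 := key l' hl'
    have h3 := hd.length
    omega
  · have hlt : ∑ i, m' i < ∑ i, m i := by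
      obtain ⟨i, hi⟩ := Finset.nonempty_iff_ne_empty.mpr hne
      apply Finset.sum_lt_sum
      · intro j _; rw [hm j]; omega
      · refine ⟨i, Finset.mem_univ _, ?_⟩
        rw [hm i, if_pos (hz ▸ hi)]; omega
    have hIH := ih u huT m' hlt
    refine (tf_cons (a := u) ?_ hIH).congr ?_
    · rintro c hc c' _ rfl
      have := hc.2.1
      rw [List.isChain_cons_cons] at this
      exact this.1 rfl
    · ext l
      constructor
      · rintro ⟨τ', hτ', rfl⟩
        obtain ⟨b, t, ht⟩ := W_ne_nil hτ'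
        refine ⟨⟨?_, ?_, ?_, ?_⟩, u, rfl, ?_⟩
        · intro a ha
          rcases List.mem_cons.mp ha with rfl | ha
          · exact huT
          · exact hτ'.1 a ha
        · rw [List.isChain_cons_cons]
          exact ⟨hxneu, hτ'.2.1⟩
        · rw [List.getLast?_cons, hτ'.2.2.1]; rfl
        · funext i
          rw [cross_cons_cons, hτ'.2.2.2, hxu i, ← hm i]
        · intro i hi
          rw [mem_sep]
          intro h0
          have h1 := hxu i
          rw [if_neg (not_not.mpr h0), if_pos hi] at h1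
          exact absurd h1 (by norm_num)
      · intro hl
        obtain ⟨τ', rfl, hc⟩ := hstart l hl
        refine ⟨τ', ?_, rfl⟩
        have hτ'ne : τ' ≠ [] := by
          rintro rfl
          exact hm'0 (by rw [← hc]; rfl)
        refine ⟨fun a ha => hl.1.1 a (by simp [ha]), ?_, ?_, hc⟩
        · have := hl.1.2.1
          rw [List.isChain_cons_cons] at this
          exact this.2
        · have := hl.1.2.2.1
          rw [List.getLast?_cons] at this
          obtain ⟨b, hb⟩ := exists_last hτ'ne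
          rw [hb] at this ⊢
          simpa using this

/-- the main combinatorial theorem -/
theorem tf_W (h : OM Cov) (hy : y ∈ Tp Cov)
    (gate : ∀ x ∈ Tp Cov, ∀ m : ι → ℕ, ∀ F ∈ Cov, le F x → z F ≠ ∅ → z F ≠ supp m →
      Acy Dl (WB Cov x y m (z F))) :
    ∀ n : ℕ, ∀ x ∈ Tp Cov, ∀ m : ι → ℕ, ∑ i, m i ≤ n → Tf Dl (W Cov x y m) := by
  intro n
  induction n using Nat.strong_induction_on with
  | _ n ih =>
    intro x hx m hn
    by_cases hs : supp m = ∅
    · refine tf_empty.congr ?_
      ext τ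
      constructor
      · intro h0; exact absurd h0 (by simp)
      · intro hτ
        exfalso
        obtain ⟨b, t, rfl⟩ := W_ne_nil hτ
        have h1 := sep_subset_supp hτ (a := b) rfl
        rw [hs] at h1
        have h2 := hτ.2.1
        rw [List.isChain_cons_cons] at h2
        obtain ⟨i, hi⟩ := Function.ne_iff.mp h2.1
        have := h1 (mem_sep.mpr hi)
        simp at this
    · have ih' : ∀ u ∈ Tp Cov, ∀ m' : ι → ℕ, ∑ i, m' i < ∑ i, m i → Tf Dl (W Cov u y m') := by
        intro u hu m' hlt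
        exact ih (∑ i, m' i) (by omega) u hu m' le_rfl
      refine (Aug_split hx).tf_sub_of_acy ((acy_Aug h hx).congr (Aug_eq hx))
        (tf_Pos h hx (gate x hx m) ?_)
      have hzx : z x = ∅ := hx.2
      by_cases hex : ∃ FB, FB ∈ Cov ∧ le FB x ∧ z FB = supp m
      · obtain ⟨FB, hFB, hFBx, hFBz⟩ := hex
        have hWB := tf_WB (y := y) h hx hFB hFBx hFBz ih' hs
        have hlt : z x ⊂ z FB := by
          rw [hzx, hFBz]
          exact Finset.empty_ssubset.mpr (Finset.nonempty_iff_ne_empty.mpr hs)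
        refine (tf_DD h hFB hFBx hWB _ x hx.1 (le_refl' x) hlt le_rfl).congr ?_
        ext l
        constructor
        · rintro ⟨σ, τ, rfl, hσ, hτ, a, ha, hsub⟩
          refine ⟨⟨σ, τ, a, rfl, hτ, ha, ?_, ne_nil_of_getLast? hσ.2⟩, ?_⟩
          · refine Ch_mono ?_ hσ.1
            rw [hzx, Finset.sdiff_empty]; exact hsub
          · rw [Pos_take (a := a) hτ hσ.1, topz_of hσ.2, hFBz]
        · rintro ⟨⟨σ, τ, a, rfl, hτ, ha, hσ, hne⟩, htop⟩
          rw [Pos_take (a := a) hτ hσ] at htop
          obtain ⟨F, hF⟩ := exists_last hne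
          rw [topz_of hF] at htop
          have hFm := hσ.1 F (mem_of_getLast? hF)
          have hFF : F = FB := eq_of_le_z hFm.2.1 hFBx (htop.trans hFBz.symm)
          subst hFF
          have hsub : z F ⊆ sep x a := by
            have := hFm.2.2.2
            rwa [hzx, Finset.sdiff_empty] at this
          exact ⟨σ, τ, rfl, ⟨Ch_of_last hσ hF (Finset.Subset.refl _), hF⟩, hτ, a, ha, hsub⟩
      · refine tf_empty.congr ?_
        ext l
        constructor
        · intro h0; exact absurd h0 (by simp)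
        · rintro ⟨⟨σ, τ, a, rfl, hτ, ha, hσ, hne⟩, htop⟩
          rw [Pos_take (a := a) hτ hσ] at htop
          obtain ⟨F, hF⟩ := exists_last hne
          rw [topz_of hF] at htop
          have hFm := hσ.1 F (mem_of_getLast? hF)
          exact absurd ⟨F, hFm.1, hFm.2.1, htop⟩ hex

end Final

theorem t_MAIN : S_MAIN := by
  intro ι _ _ Cov h x hx y hy m
  exact tf_W h hy (fun x hx m F hF hle hne hsupp => t_GATE ι Cov h x hx y hy m F hF hle hne hsupp)
    _ x hx m le_rfl

end H61Mag
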