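import Pool.Agent.E8helper61.Mag.Lists
import Pool.Agent.E8helper61.Mag.Defs

/-!
Chains of faces and walks of topes.
-/

namespace H61Mag

variable {ι : Type*} [Fintype ι] [DecidableEq ι]

theorem mem_z {X : Sg ι} {i : ι} : i ∈ z X ↔ X i = 0 := by simp [z]

theorem mem_sep {X Y : Sg ι} {i : ι} : i ∈ sep X Y ↔ X i ≠ Y i := by simp [sep]

theorem le_refl' (X : Sg ι) : le X X := fun _ => Or.inr rfl

theorem le_trans' {X Y Z : Sg ι} (h1 : le X Y) (h2 : le Y Z) : le X Z := by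
  intro i
  rcases h1 i with h | h
  · exact Or.inl h
  · rcases h2 i with h' | h'
    · left; rw [h, h']
    · right; rw [h, h']

theorem z_subset_of_le {X Y : Sg ι} (h : le Y X) : z X ⊆ z Y := by
  intro i hi
  rw [mem_z] at *
  rcases h i with h | h
  · exact h
  · rw [h, hi]

/-- two faces of `X` with the same zero set are equal -/
theorem eq_of_le_z {X Y Y' : Sg ι} (h : le Y X) (h' : le Y' X) (hz : z Y = z Y') : Y = Y' := by
  funext i
  by_cases hi : i ∈ z Y
  · have h2 : i ∈ z Y' := hz ▸ hi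
    rw [mem_z] at hi h2; rw [hi, h2]
  · have h2 : i ∉ z Y' := hz ▸ hi
    rw [mem_z] at hi h2
    rw [(h i).resolve_left hi, (h' i).resolve_left h2]

theorem le_of_z_subset {X Y Y' : Sg ι} (h : le Y X) (h' : le Y' X) (hz : z Y ⊆ z Y') :
    le Y' Y := by
  intro i
  by_cases hi : i ∈ z Y'
  · left; rwa [mem_z] at hi
  · right
    have h2 : i ∉ z Y := fun h3 => hi (hz h3)
    rw [mem_z] at hi h2
    rw [(h i).resolve_left h2, (h' i).resolve_left hi]

theorem z_comp (X Y : Sg ι) : z (comp X Y) = z X ∩ z Y := by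
  ext i
  rw [Finset.mem_inter, mem_z, mem_z, mem_z, comp]
  by_cases h : X i = 0 <;> simp [h]

theorem z_neg (X : Sg ι) : z (-X) = z X := by
  ext i; rw [mem_z, mem_z]; simp

theorem le_comp (X Y : Sg ι) : le X (comp X Y) := by
  intro i
  by_cases h : X i = 0
  · exact Or.inl h
  · right; simp [comp, h]

/-- chains of faces `F` of `X`, strictly smaller than `X`, with `z F \ z X ⊆ S`, the zero sets
strictly increasing along the list -/
def Ch (Cov : Set (Sg ι)) (X : Sg ι) (S : Finset ι) : Set (List (Sg ι)) :=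
  {σ | (∀ F ∈ σ, F ∈ Cov ∧ le F X ∧ z X ⊂ z F ∧ z F \ z X ⊆ S) ∧
    σ.Pairwise (fun F G => z F ⊂ z G)}

/-- topes -/
def Tp (Cov : Set (Sg ι)) : Set (Sg ι) := {X | X ∈ Cov ∧ z X = ∅}

/-- number of times each coordinate is crossed by a walk -/
def cross : List (Sg ι) → (ι → ℕ)
  | [] => 0
  | [_] => 0
  | (a :: b :: l) => (fun i => if a i ≠ b i then 1 else 0) + cross (b :: l)

/-- walks of topes starting at `x` (not listed), ending at `y` (listed), consecutive topes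
distinct, crossing the coordinate `i` exactly `m i` times -/
def W (Cov : Set (Sg ι)) (x y : Sg ι) (m : ι → ℕ) : Set (List (Sg ι)) :=
  {τ | (∀ a ∈ τ, a ∈ Tp Cov) ∧ List.IsChain (· ≠ ·) (x :: τ) ∧ τ.getLast? = some y ∧
    cross (x :: τ) = m}

/-- the walks whose first step crosses all of `B` -/
def WB (Cov : Set (Sg ι)) (x y : Sg ι) (m : ι → ℕ) (B : Finset ι) : Set (List (Sg ι)) :=
  {τ | τ ∈ W Cov x y m ∧ ∃ a, τ.head? = some a ∧ B ⊆ sep x a}

/-- the support of `m` -/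
def supp (m : ι → ℕ) : Finset ι := Finset.univ.filter (fun i => m i ≠ 0)

/-- (G1) the complex of chains of faces of `X` visible from `Z` is acyclic -/
def S_G1 : Prop := ∀ (ι : Type) [Fintype ι] [DecidableEq ι] (Cov : Set (Sg ι)), OM Cov →
  ∀ X ∈ Cov, ∀ Z ∈ Cov, z X = z Z → X ≠ Z → Acy Dl (Ch Cov X (sep X Z))

/-- (GATE) -/
def S_GATE : Prop := ∀ (ι : Type) [Fintype ι] [DecidableEq ι] (Cov : Set (Sg ι)), OM Cov →
  ∀ x ∈ Tp Cov, ∀ y ∈ Tp Cov, ∀ m : ι → ℕ, ∀ F ∈ Cov, le F x → z F ≠ ∅ → z F ≠ supp m →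
    Acy Dl (WB Cov x y m (z F))

/-- main combinatorial theorem -/
def S_MAIN : Prop := ∀ (ι : Type) [Fintype ι] [DecidableEq ι] (Cov : Set (Sg ι)), OM Cov →
  ∀ x ∈ Tp Cov, ∀ y ∈ Tp Cov, ∀ m : ι → ℕ, Tf Dl (W Cov x y m)

end H61Mag
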